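import Mathlib

/-!
# The polyanalytic Bergman spaces and Toeplitz operators: definitions
-/

namespace Q194.TP

open MeasureTheory Metric Topology
open scoped ENNReal ComplexConjugate InnerProductSpace

/-- The normalised area measure of the unit disc. -/
noncomputable def dA : Measure ℂ := (ENNReal.ofReal Real.pi)⁻¹ • volume.restrict (ball (0 : ℂ) 1)

instance : IsFiniteMeasure dA := by
  unfold dA
  have : IsFiniteMeasure (volume.restrict (ball (0 : ℂ) 1)) := by
    refine ⟨?_⟩
    rw [Measure.restrict_apply_univ]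
    exact measure_ball_lt_top
  refine Measure.smul_finite _ ?_
  rw [Ne, ENNReal.inv_eq_top, ENNReal.ofReal_eq_zero, not_le]
  exact Real.pi_pos

lemma dA_ac : dA ≪ volume.restrict (ball (0 : ℂ) 1) := Measure.smul_absolutelyContinuous

lemma ae_ball : ∀ᵐ z ∂dA, ‖z‖ < 1 := by
  have h : ∀ᵐ z ∂(volume.restrict (ball (0 : ℂ) 1)), ‖z‖ < 1 := by
    rw [ae_restrict_iff' measurableSet_ball]
    exact Filter.Eventually.of_forall fun z hz => by simpa using hz
  exact dA_ac.ae_le h

lemma ae_ne_zero : ∀ᵐ z ∂dA, z ≠ 0 := by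
  refine dA_ac.ae_le ?_
  refine ae_restrict_of_ae ?_
  rw [ae_iff]
  simp

/-- rotation invariance -/
lemma rot {u : ℂ} (hu : ‖u‖ = 1) : MeasurePreserving (fun z => u * z) dA dA := by
  have h1 : MeasurePreserving (fun z : ℂ => u * z) volume volume := by
    have h3 := (rotation (⟨u, mem_sphere_zero_iff_norm.2 hu⟩ : Circle)).measurePreserving
    exact h3
  have h4 : (fun z : ℂ => u * z) ⁻¹' ball (0 : ℂ) 1 = ball 0 1 := by
    ext z
    simp [hu]
  have h5 := h1.restrict_preimage (measurableSet_ball (x := (0 : ℂ)) (ε := 1))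
  rw [h4] at h5
  exact ⟨h5.measurable, by
    unfold dA
    rw [Measure.map_smul, h5.map_eq]⟩

/-- Polyanalytic functions: the classes in `L²(D, dA)` of the functions
`∑_{j<n} (conj z)^j h_j(z)`, `h_j` holomorphic in the unit disc. -/
def polyBergman (n : ℕ) : Submodule ℂ (Lp ℂ 2 dA) where
  carrier := {h | ∃ H : Fin n → ℂ → ℂ, (∀ j, DifferentiableOn ℂ (H j) (ball 0 1)) ∧
    h =ᵐ[dA] fun z => ∑ j : Fin n, conj z ^ (j : ℕ) * H j z}
  add_mem' := by
    rintro h h' ⟨H, hH, e⟩ ⟨H', hH', e'⟩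
    refine ⟨fun j z => H j z + H' j z, fun j => (hH j).add (hH' j), ?_⟩
    filter_upwards [e, e', Lp.coeFn_add h h'] with z h1 h2 h3
    rw [h3, Pi.add_apply, h1, h2, ← Finset.sum_add_distrib]
    exact Finset.sum_congr rfl fun j _ => by ring
  zero_mem' := by
    refine ⟨fun _ _ => 0, fun j => differentiableOn_const _, ?_⟩
    filter_upwards [Lp.coeFn_zero ℂ 2 dA] with z h1
    rw [h1]
    simp
  smul_mem' := by
    rintro c h ⟨H, hH, e⟩
    refine ⟨fun j z => c * H j z, fun j => (hH j).const_mul c, ?_⟩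
    filter_upwards [e, Lp.coeFn_smul c h] with z h1 h3
    rw [h3, Pi.smul_apply, h1, smul_eq_mul, Finset.mul_sum]
    exact Finset.sum_congr rfl fun j _ => by ring

/-- The polyanalytic Bergman space `A²_n` (as a closed subspace of `L²(D, dA)`). -/
noncomputable def A2 (n : ℕ) : Submodule ℂ (Lp ℂ 2 dA) := (polyBergman n).topologicalClosure

instance (n : ℕ) : CompleteSpace (A2 n) :=
  (polyBergman n).isClosed_topologicalClosure.completeSpace_coe

/-- The Toeplitz operator `T_f h = P_n (f h)` on `A²_n`. -/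
noncomputable def toeplitz (n : ℕ) (f : Lp ℂ ∞ dA) (h : A2 n) : A2 n :=
  (A2 n).orthogonalProjectionOnto (f • (h : Lp ℂ 2 dA))

end Q194.TP
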