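import Pool.Agent.Q194.TP.Rep
import Pool.Agent.Q194.TP.Defs

/-!
# Analyticity of the moments and the alternative
-/

namespace Q194.TP

open MeasureTheory Metric Topology Filter
open scoped ENNReal ComplexConjugate

/-- the moments of `ψ` -/
noncomputable def Mom (ψ : ℂ → ℂ) (s : ℂ) : ℂ := ∫ z, ψ z * (((‖z‖ ^ 2 : ℝ) : ℂ) ^ s) ∂dA

lemma mom_meas (s : ℂ) : Measurable fun z : ℂ => (((‖z‖ ^ 2 : ℝ) : ℂ) ^ s) := by
  fun_prop

lemma tau_norm {z s : ℂ} (hz0 : z ≠ 0) :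
    ‖(((‖z‖ ^ 2 : ℝ) : ℂ) ^ s)‖ = (‖z‖ ^ 2) ^ s.re := by
  have h : 0 < ‖z‖ ^ 2 := by positivity
  rw [Complex.norm_cpow_eq_rpow_re_of_pos h]

lemma tau_le {z s : ℂ} (hz : ‖z‖ < 1) (hz0 : z ≠ 0) (hs : 0 ≤ s.re) :
    ‖(((‖z‖ ^ 2 : ℝ) : ℂ) ^ s)‖ ≤ 1 := by
  rw [tau_norm hz0]
  refine Real.rpow_le_one (by positivity) ?_ hs
  have := norm_nonneg z
  nlinarith

lemma mom_int {ψ : ℂ → ℂ} (hψ : Integrable ψ dA) {s : ℂ} (hs : 0 ≤ s.re) :
    Integrable (fun z => ψ z * (((‖z‖ ^ 2 : ℝ) : ℂ) ^ s)) dA := by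
  refine hψ.mono (hψ.aestronglyMeasurable.mul (mom_meas s).aestronglyMeasurable) ?_
  filter_upwards [ae_ball, ae_ne_zero] with z h1 h2
  rw [norm_mul]
  exact mul_le_of_le_one_right (norm_nonneg _) (tau_le h1 h2 hs)

/-- the moments are holomorphic -/
lemma mom_diff {ψ : ℂ → ℂ} (hψ : Integrable ψ dA) : DifferentiableOn ℂ (Mom ψ) {s | 0 < s.re} := by
  intro s0 hs0
  have hs0' : 0 < s0.re := hs0
  set δ := s0.re / 2 with hδ
  have hδ0 : 0 < δ := by positivity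
  have hnhd : {s : ℂ | δ < s.re} ∈ 𝓝 s0 :=
    (isOpen_lt continuous_const Complex.continuous_re).mem_nhds (by
      change δ < s0.re
      rw [hδ]; linarith)
  have h := hasDerivAt_integral_of_dominated_loc_of_deriv_le (μ := dA)
    (F := fun (s : ℂ) (z : ℂ) => ψ z * (((‖z‖ ^ 2 : ℝ) : ℂ) ^ s))
    (F' := fun (s : ℂ) (z : ℂ) => ψ z * ((((‖z‖ ^ 2 : ℝ) : ℂ) ^ s) *
      Complex.log (((‖z‖ ^ 2 : ℝ) : ℂ))))
    (bound := fun z => ‖ψ z‖ * (1 / δ)) (x₀ := s0) (s := {s : ℂ | δ < s.re}) hnhd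
    (Eventually.of_forall fun s =>
      hψ.aestronglyMeasurable.mul (mom_meas s).aestronglyMeasurable)
    (mom_int hψ hs0'.le)
    (hψ.aestronglyMeasurable.mul ((mom_meas s0).mul (by fun_prop)).aestronglyMeasurable)
    (by
      filter_upwards [ae_ball, ae_ne_zero] with z h1 h2 s hs
      have hs' : δ < s.re := hs
      have hp : 0 < ‖z‖ ^ 2 := by positivity
      have hp1 : ‖z‖ ^ 2 ≤ 1 := by
        have := norm_nonneg z
        nlinarith
      rw [norm_mul, norm_mul, tau_norm h2, ← Complex.ofReal_log hp.le, Complex.norm_real,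
        Real.norm_eq_abs]
      refine mul_le_mul_of_nonneg_left ?_ (norm_nonneg _)
      have h3 := Real.abs_log_mul_self_rpow_lt (‖z‖ ^ 2) δ hp hp1 hδ0
      rw [abs_mul, abs_of_nonneg (Real.rpow_nonneg hp.le δ), mul_comm] at h3
      refine le_trans (mul_le_mul_of_nonneg_right ?_ (abs_nonneg _)) h3.le
      exact Real.rpow_le_rpow_of_exponent_ge hp hp1 hs'.le)
    (hψ.norm.mul_const _)
    (by
      filter_upwards [ae_ball, ae_ne_zero] with z h1 h2 s hs
      have hp : 0 < ‖z‖ ^ 2 := by positivity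
      have hne : (((‖z‖ ^ 2 : ℝ) : ℂ)) ≠ 0 := Complex.ofReal_ne_zero.2 hp.ne'
      have h4 := (hasDerivAt_id s).const_cpow (c := ((‖z‖ ^ 2 : ℝ) : ℂ)) (Or.inl hne)
      have h5 := h4.const_mul (ψ z)
      simpa using h5)
  exact h.2.differentiableAt.differentiableWithinAt

/-- the moment at a real number -/
lemma mom_rep {ψ : ℂ → ℂ} (hψ : Integrable ψ dA) : (fun s : ℝ => Mom ψ (s : ℂ)) ∈ Rep := by
  have hmeas : Continuous fun z : ℂ => Set.projIcc (0 : ℝ) 1 zero_le_one (‖z‖ ^ 2) :=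
    continuous_projIcc.comp (by fun_prop)
  have hint : ∀ f : C(Set.Icc (0 : ℝ) 1, ℂ),
      Integrable (fun z => ψ z * f (Set.projIcc (0 : ℝ) 1 zero_le_one (‖z‖ ^ 2))) dA := by
    intro f
    refine (hψ.norm.mul_const ‖f‖).mono' (hψ.aestronglyMeasurable.mul
      (f.continuous.comp hmeas).measurable.aestronglyMeasurable) ?_
    refine Eventually.of_forall fun z => ?_
    rw [norm_mul]
    exact mul_le_mul_of_nonneg_left (f.norm_coe_le_norm _) (norm_nonneg _)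
  refine ⟨LinearMap.mkContinuous
    { toFun := fun f => ∫ z, ψ z * f (Set.projIcc (0 : ℝ) 1 zero_le_one (‖z‖ ^ 2)) ∂dA
      map_add' := fun f g => by
        rw [← integral_add (hint f) (hint g)]
        refine integral_congr_ae (Eventually.of_forall fun z => ?_)
        simp only [ContinuousMap.add_apply]
        ring
      map_smul' := fun c f => by
        rw [RingHom.id_apply, smul_eq_mul, ← integral_const_mul]
        refine integral_congr_ae (Eventually.of_forall fun z => ?_)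
        simp only [ContinuousMap.smul_apply, smul_eq_mul]
        ring } (∫ z, ‖ψ z‖ ∂dA) (fun f => by
    change ‖∫ z, ψ z * f (Set.projIcc (0 : ℝ) 1 zero_le_one (‖z‖ ^ 2)) ∂dA‖ ≤ _
    refine (norm_integral_le_integral_norm _).trans ?_
    rw [← integral_mul_const]
    refine integral_mono (hint f).norm (hψ.norm.mul_const _) fun z => ?_
    rw [norm_mul]
    exact mul_le_mul_of_nonneg_left (f.norm_coe_le_norm _) (norm_nonneg _)), fun s hs => ?_⟩
  change ∫ z, ψ z * (((‖z‖ ^ 2 : ℝ) : ℂ) ^ (s : ℂ)) ∂dA =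
    ∫ z, ψ z * pw s (Set.projIcc (0 : ℝ) 1 zero_le_one (‖z‖ ^ 2)) ∂dA
  refine integral_congr_ae ?_
  filter_upwards [ae_ball] with z h1
  have hmem : ‖z‖ ^ 2 ∈ Set.Icc (0 : ℝ) 1 := ⟨by positivity, by
    have := norm_nonneg z
    nlinarith⟩
  rw [pw_apply, Set.projIcc_of_mem zero_le_one hmem, max_eq_left hs.le,
    Complex.ofReal_cpow (by positivity)]

lemma mom_shift (ψ : ℂ → ℂ) (s : ℂ) (c : ℕ) :
    Mom ψ (s + c) = Mom (fun z => ψ z * ((‖z‖ ^ 2 : ℝ) : ℂ) ^ c) s := by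
  unfold Mom
  refine integral_congr_ae ?_
  filter_upwards [ae_ne_zero] with z h2
  have hne : (((‖z‖ ^ 2 : ℝ) : ℂ)) ≠ 0 := Complex.ofReal_ne_zero.2 (by positivity)
  rw [Complex.cpow_add _ _ hne, Complex.cpow_natCast]
  ring

lemma int_shift {ψ : ℂ → ℂ} (hψ : Integrable ψ dA) (c : ℕ) :
    Integrable (fun z => ψ z * ((‖z‖ ^ 2 : ℝ) : ℂ) ^ c) dA := by
  have := mom_int hψ (s := (c : ℂ)) (by simp)
  refine this.congr (Eventually.of_forall fun z => ?_)
  simp only [Complex.cpow_natCast]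

/-- the Hankel matrix of moments -/
noncomputable def HM (ψ : ℂ → ℂ) (n c : ℕ) (s : ℂ) : Matrix (Fin n) (Fin n) ℂ :=
  fun i j => Mom ψ (s + ((c + i + j : ℕ) : ℂ))

/-- the Hankel determinant of moments -/
noncomputable def HD (ψ : ℂ → ℂ) (n c : ℕ) (s : ℂ) : ℂ := (HM ψ n c s).det

lemma HD_rep {ψ : ℂ → ℂ} (hψ : Integrable ψ dA) (n c : ℕ) : (fun s : ℝ => HD ψ n c (s : ℂ)) ∈ Rep := by
  set M : Matrix (Fin n) (Fin n) (ℝ → ℂ) :=
    fun i j => fun s : ℝ => Mom ψ ((s : ℂ) + ((c + i + j : ℕ) : ℂ)) with hM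
  have h := Rep.det M
    (fun i j => by
      obtain ⟨Λ, hΛ⟩ := mom_rep (int_shift hψ (c + i + j))
      exact ⟨Λ, fun s hs => (mom_shift ψ (s : ℂ) (c + i + j)).trans (hΛ s hs)⟩)
  convert h using 1
  funext s
  have h2 := (Pi.evalRingHom (fun _ : ℝ => ℂ) s).map_det M
  rw [Pi.evalRingHom_apply] at h2
  rw [h2]
  rfl

lemma HD_diff {ψ : ℂ → ℂ} (hψ : Integrable ψ dA) (n c : ℕ) :
    DifferentiableOn ℂ (HD ψ n c) {s | 0 < s.re} := by
  have e : HD ψ n c = fun s => ∑ σ : Equiv.Perm (Fin n), ((Equiv.Perm.sign σ : ℤ) : ℂ) *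
      ∏ i, Mom ψ (s + ((c + (σ i : Fin n) + i : ℕ) : ℂ)) := by
    funext s
    rw [HD, Matrix.det_apply']
    rfl
  rw [e]
  refine DifferentiableOn.fun_sum fun σ _ => ?_
  refine DifferentiableOn.const_mul ?_ _
  refine DifferentiableOn.fun_finsetProd fun i _ => ?_
  refine (mom_diff hψ).comp (differentiableOn_id.add_const _) fun s hs => ?_
  have hs' : 0 < s.re := hs
  change 0 < (s + _).re
  rw [Complex.add_re, Complex.natCast_re]
  positivity

/-- **the alternative** -/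
theorem alternative {ψ g : ℂ → ℂ} (hψ : Integrable ψ dA) (hg : Integrable g dA) (n c : ℕ)
    (h : ∀ k : ℕ, 1 ≤ k → HD ψ n c k * Mom g k = 0) :
    (∀ k : ℕ, 1 ≤ k → HD ψ n c k = 0) ∨ (∀ k : ℕ, 1 ≤ k → Mom g k = 0) := by
  set U : Set ℂ := {s | 0 < s.re} with hU
  have hUo : IsOpen U := isOpen_lt continuous_const Complex.continuous_re
  have hUc : IsPreconnected U := (convex_halfSpace_re_gt 0).isPreconnected
  have hA : AnalyticOnNhd ℂ (HD ψ n c) U := (HD_diff hψ n c).analyticOnNhd hUo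
  have hB : AnalyticOnNhd ℂ (Mom g) U := (mom_diff hg).analyticOnNhd hUo
  have hreal : ∀ s : ℝ, 1 ≤ s → HD ψ n c s * Mom g s = 0 := fun s hs =>
    rep_zero (D := fun s : ℝ => HD ψ n c (s : ℂ) * Mom g (s : ℂ))
      (Rep.mul_mem (HD_rep hψ n c) (mom_rep hg)) (fun k hk => by
        simpa using h k hk) s hs
  have hzero : Set.EqOn (fun s => HD ψ n c s * Mom g s) 0 U := by
    refine (hA.mul hB).eqOn_zero_of_preconnected_of_frequently_eq_zero hUc
      (z₀ := (2 : ℂ)) (by change 0 < (2 : ℂ).re; simp) ?_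
    rw [Filter.frequently_iff]
    intro V hV
    rw [mem_nhdsWithin] at hV
    obtain ⟨W, hW, h2W, hWV⟩ := hV
    obtain ⟨ε, hε, hball⟩ := Metric.isOpen_iff.1 hW 2 h2W
    refine ⟨((2 + ε / 2 : ℝ) : ℂ), hWV ⟨hball ?_, ?_⟩, hreal _ (by linarith)⟩
    · rw [Metric.mem_ball, dist_eq_norm]
      have : ((2 + ε / 2 : ℝ) : ℂ) - 2 = ((ε / 2 : ℝ) : ℂ) := by push_cast; ring
      rw [this, Complex.norm_real, Real.norm_eq_abs, abs_of_pos (by positivity)]
      linarith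
    · intro h3
      have h4 := congrArg Complex.re h3
      rw [Complex.ofReal_re] at h4
      simp at h4
      linarith
  rcases hA.eq_zero_or_eq_zero_of_mul_eq_zero hB (fun z hz => hzero hz) hUc with h1 | h1
  · exact Or.inl fun k hk => h1 k (by
      change 0 < ((k : ℕ) : ℂ).re
      rw [Complex.natCast_re]
      exact_mod_cast hk)
  · exact Or.inr fun k hk => h1 k (by
      change 0 < ((k : ℕ) : ℂ).re
      rw [Complex.natCast_re]
      exact_mod_cast hk)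

end Q194.TP
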