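import Pool.Agent.Q194.TP.Ana

/-!
# A bounded function whose moments vanish is zero
-/

namespace Q194.TP

open MeasureTheory Metric Topology Filter
open scoped ENNReal ComplexConjugate ContDiff


lemma restrict_DD : dA.restrict (closedBall (0 : ℂ) 1) = dA := by
  rw [Measure.restrict_eq_self_of_ae_mem]
  filter_upwards [ae_ball] with z hz
  rw [mem_closedBall, dist_zero_right]
  exact hz.le

lemma int_DD (F : ℂ → ℂ) : ∫ x : closedBall (0 : ℂ) 1, F x ∂(dA.comap Subtype.val) =
    ∫ z, F z ∂dA := by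
  rw [integral_subtype_comap measurableSet_closedBall, restrict_DD]

lemma integrable_DD {F : ℂ → ℂ} (hF : Integrable F dA) :
    Integrable (fun x : closedBall (0 : ℂ) 1 => F x) (dA.comap Subtype.val) := by
  have h : MeasurableEmbedding (Subtype.val : closedBall (0 : ℂ) 1 → ℂ) :=
    MeasurableEmbedding.subtype_coe (measurableSet_closedBall (x := (0 : ℂ)) (ε := 1))
  refine (h.integrable_map_iff (μ := dA.comap Subtype.val) (g := F)).1 ?_
  rw [h.map_comap]
  refine hF.mono_measure ?_
  exact Measure.restrict_le_self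

/-- the functional -/
noncomputable def Lam {χ : ℂ → ℂ} (hχ : Integrable χ dA) :
    C(closedBall (0 : ℂ) 1, ℂ) →L[ℂ] ℂ :=
  LinearMap.mkContinuous
    { toFun := fun f => ∫ x, χ x * f x ∂(dA.comap Subtype.val)
      map_add' := fun f g => by
        rw [← integral_add]
        · refine integral_congr_ae (Eventually.of_forall fun z => ?_)
          simp only [ContinuousMap.add_apply]
          ring
        · exact (integrable_DD hχ).mul_bdd f.continuous.measurable.aestronglyMeasurable
            (Eventually.of_forall fun x => f.norm_coe_le_norm x)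
        · exact (integrable_DD hχ).mul_bdd g.continuous.measurable.aestronglyMeasurable
            (Eventually.of_forall fun x => g.norm_coe_le_norm x)
      map_smul' := fun c f => by
        rw [RingHom.id_apply, smul_eq_mul, ← integral_const_mul]
        refine integral_congr_ae (Eventually.of_forall fun z => ?_)
        simp only [ContinuousMap.smul_apply, smul_eq_mul]
        ring } (∫ x, ‖χ x‖ ∂(dA.comap (Subtype.val : closedBall (0 : ℂ) 1 → ℂ))) (fun f => by
    change ‖∫ x, χ x * f x ∂(dA.comap Subtype.val)‖ ≤ _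
    refine (norm_integral_le_integral_norm _).trans ?_
    rw [← integral_mul_const]
    refine integral_mono_of_nonneg (Eventually.of_forall fun x => norm_nonneg _)
      ((integrable_DD hχ).norm.mul_const _) (Eventually.of_forall fun z => ?_)
    simp only [norm_mul]
    exact mul_le_mul_of_nonneg_left (f.norm_coe_le_norm _) (norm_nonneg _))

lemma Lam_apply {χ : ℂ → ℂ} (hχ : Integrable χ dA) (f : C(closedBall (0 : ℂ) 1, ℂ)) :
    Lam hχ f = ∫ x, χ x * f x ∂(dA.comap Subtype.val) := rfl

lemma Lam_restrict {χ : ℂ → ℂ} (hχ : Integrable χ dA) (f : C(closedBall (0 : ℂ) 1, ℂ)) (F : ℂ → ℂ)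
    (h : ∀ x, f x = F x) : Lam hχ f = ∫ z, χ z * F z ∂dA := by
  rw [Lam_apply, ← int_DD (fun z => χ z * F z)]
  refine integral_congr_ae (Eventually.of_forall fun x => ?_)
  simp only [h]

theorem lam_zero {χ : ℂ → ℂ} (hχ : Integrable χ dA)
    (h : ∀ a b : ℕ, ∫ z, χ z * (conj z ^ a * z ^ b) ∂dA = 0) (f : C(closedBall (0 : ℂ) 1, ℂ)) :
    Lam hχ f = 0 := by
  set ι : C(closedBall (0 : ℂ) 1, ℂ) := ContinuousMap.restrict (closedBall (0 : ℂ) 1) (.id ℂ) with hι
  set m : ℕ → ℕ → C(closedBall (0 : ℂ) 1, ℂ) := fun a b => star ι ^ a * ι ^ b with hm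
  have hmap : ∀ a b x, m a b x = conj (x : ℂ) ^ a * (x : ℂ) ^ b := fun a b x => rfl
  set I : Set C(closedBall (0 : ℂ) 1, ℂ) := {f | ∀ a b, Lam hχ (f * m a b) = 0} with hI
  have h1 : (1 : C(closedBall (0 : ℂ) 1, ℂ)) ∈ I := by
    intro a b
    rw [one_mul, Lam_restrict hχ _ (fun z => conj z ^ a * z ^ b) (hmap a b)]
    exact h a b
  have hadd : ∀ f ∈ I, ∀ g ∈ I, f + g ∈ I := fun f hf g hg a b => by
    rw [add_mul, map_add, hf a b, hg a b, add_zero]
  have hsmul : ∀ (c : ℂ), ∀ f ∈ I, c • f ∈ I := fun c f hf a b => by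
    rw [smul_mul_assoc, map_smul, hf a b, smul_zero]
  have hid : ∀ f ∈ I, f * ι ∈ I := fun f hf a b => by
    have e : f * ι * m a b = f * m a (b + 1) := by
      simp only [hm]; ring
    rw [e]; exact hf _ _
  have hst : ∀ f ∈ I, f * star ι ∈ I := fun f hf a b => by
    have e : f * star ι * m a b = f * m (a + 1) b := by
      simp only [hm]; ring
    rw [e]; exact hf _ _
  have hadj : ∀ x ∈ StarAlgebra.adjoin ℂ {ι}, (∀ f ∈ I, f * x ∈ I) ∧ ∀ f ∈ I, f * star x ∈ I := by
    intro x hx
    induction hx using StarAlgebra.adjoin_induction with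
    | mem x hx =>
      rw [Set.mem_singleton_iff] at hx
      rw [hx]
      exact ⟨hid, hst⟩
    | algebraMap r =>
      refine ⟨fun f hf => ?_, fun f hf => ?_⟩
      · rw [← Algebra.commutes, ← Algebra.smul_def]
        exact hsmul r f hf
      · rw [← algebraMap_star_comm, ← Algebra.commutes, ← Algebra.smul_def]
        exact hsmul _ f hf
    | add x y _ _ hx hy =>
      refine ⟨fun f hf => ?_, fun f hf => ?_⟩
      · rw [mul_add]; exact hadd _ (hx.1 f hf) _ (hy.1 f hf)
      · rw [star_add, mul_add]; exact hadd _ (hx.2 f hf) _ (hy.2 f hf)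
    | mul x y _ _ hx hy =>
      refine ⟨fun f hf => ?_, fun f hf => ?_⟩
      · rw [← mul_assoc]; exact hy.1 _ (hx.1 f hf)
      · rw [star_mul, ← mul_assoc]; exact hx.2 _ (hy.2 f hf)
    | star x _ hx =>
      refine ⟨hx.2, fun f hf => ?_⟩
      rw [star_star]; exact hx.1 f hf
  have hzero : ∀ x ∈ StarAlgebra.adjoin ℂ {ι}, Lam hχ x = 0 := by
    intro x hx
    have := (hadj x hx).1 1 h1 0 0
    have e : 1 * x * m 0 0 = x := by simp [hm]
    rwa [e] at this
  have hf : f ∈ StarAlgebra.elemental ℂ ι := by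
    rw [hι, ContinuousMap.elemental_id_eq_top]
    trivial
  have hcl : IsClosed {f | Lam hχ f = 0} := isClosed_eq (Lam hχ).continuous continuous_const
  have hsub : (StarAlgebra.elemental ℂ ι : Set C(closedBall (0 : ℂ) 1, ℂ)) ⊆ {f | Lam hχ f = 0} := by
    rw [StarAlgebra.elemental, StarSubalgebra.topologicalClosure_coe]
    exact closure_minimal hzero hcl
  exact hsub hf

/-- **vanishing moments** -/
theorem ae_zero_of_moments {ψ : ℂ → ℂ} (hψ : Integrable ψ dA)
    (h : ∀ a b : ℕ, 1 ≤ a → 1 ≤ b → ∫ z, ψ z * (conj z ^ a * z ^ b) ∂dA = 0) : ψ =ᵐ[dA] 0 := by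
  set χ : ℂ → ℂ := fun z => ψ z * (conj z * z) with hχd
  have hχ : Integrable χ dA := by
    refine hψ.mono (hψ.aestronglyMeasurable.mul (by fun_prop)) ?_
    filter_upwards [ae_ball] with z hz
    rw [norm_mul, norm_mul, RCLike.norm_conj]
    refine mul_le_of_le_one_right (norm_nonneg _) ?_
    have := norm_nonneg z
    nlinarith
  have h0 : ∀ a b : ℕ, ∫ z, χ z * (conj z ^ a * z ^ b) ∂dA = 0 := by
    intro a b
    rw [← h (a + 1) (b + 1) (by omega) (by omega)]
    refine integral_congr_ae (Eventually.of_forall fun z => ?_)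
    simp only [hχd]
    ring
  have h2 : ∀ᵐ z ∂dA, χ z = 0 := by
    refine ae_eq_zero_of_integral_contDiff_smul_eq_zero hχ.locallyIntegrable fun g hg _ => ?_
    have h3 := lam_zero hχ h0 ⟨fun x : closedBall (0 : ℂ) 1 => ((g x : ℝ) : ℂ),
      Complex.continuous_ofReal.comp (hg.continuous.comp continuous_subtype_val)⟩
    rw [Lam_restrict hχ _ (fun z => ((g z : ℝ) : ℂ)) (fun x => rfl)] at h3
    rw [← h3]
    refine integral_congr_ae (Eventually.of_forall fun z => ?_)
    simp only [Complex.real_smul]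
    ring
  filter_upwards [h2, ae_ne_zero] with z h4 h5
  rw [Pi.zero_apply]
  simp only [hχd] at h4
  refine (mul_eq_zero.1 h4).resolve_right (mul_ne_zero ?_ h5)
  rwa [Ne, map_eq_zero]

end Q194.TP
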