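import Pool.Agent.Q194.TP.Factor
import Pool.Agent.Q194.TP.SW

/-!
# The finite rank theorem

If all minors of some size of the moment matrix `∫ ψ conj z^a z^b` of an integrable function on the
disc vanish then the function is zero.
-/

namespace Q194.TP

open MeasureTheory Metric Topology Filter Real
open scoped ENNReal ComplexConjugate

/-- the exponential kernel -/
noncomputable def Ph (ψ : ℂ → ℂ) (η ξ : ℂ) : ℂ :=
  ∫ z, ψ z * Complex.exp (η * conj z + ξ * z) ∂dA

lemma exp_bd {η ξ z : ℂ} (hz : ‖z‖ < 1) :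
    ‖Complex.exp (η * conj z + ξ * z)‖ ≤ Real.exp (‖η‖ + ‖ξ‖) := by
  rw [Complex.norm_exp]
  refine Real.exp_le_exp.2 ((Complex.re_le_norm _).trans ((norm_add_le _ _).trans ?_))
  rw [norm_mul, norm_mul, RCLike.norm_conj]
  exact add_le_add (mul_le_of_le_one_right (norm_nonneg _) hz.le)
    (mul_le_of_le_one_right (norm_nonneg _) hz.le)

lemma ph_int {ψ : ℂ → ℂ} (hψ : Integrable ψ dA) (η ξ : ℂ) :
    Integrable (fun z => ψ z * Complex.exp (η * conj z + ξ * z)) dA := by
  refine hψ.mul_bdd (c := Real.exp (‖η‖ + ‖ξ‖)) (Continuous.aestronglyMeasurable (by fun_prop)) ?_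
  filter_upwards [ae_ball] with z hz
  exact exp_bd hz

lemma mul_int {h u : ℂ → ℂ} (hh : Integrable h dA) (hu : Continuous u)
    (hu1 : ∀ z, ‖z‖ < 1 → ‖u z‖ ≤ 1) (a : ℕ) : Integrable (fun z => h z * u z ^ a) dA := by
  refine hh.mul_bdd (c := 1) (Continuous.aestronglyMeasurable (by fun_prop)) ?_
  filter_upwards [ae_ball] with z hz
  rw [norm_pow]
  exact pow_le_one₀ (norm_nonneg _) (hu1 z hz)

/-- expansion of the exponential -/
lemma hs {h u : ℂ → ℂ} (hh : Integrable h dA) (hu : Continuous u)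
    (hu1 : ∀ z, ‖z‖ < 1 → ‖u z‖ ≤ 1) (c : ℂ) :
    HasSum (fun a : ℕ => c ^ a / (a.factorial : ℂ) * ∫ z, h z * u z ^ a ∂dA)
      (∫ z, h z * Complex.exp (c * u z) ∂dA) := by
  have h1 := hasSum_integral_of_summable_integral_norm (μ := dA)
    (F := fun (a : ℕ) z => c ^ a / (a.factorial : ℂ) * (h z * u z ^ a))
    (fun a => (mul_int hh hu hu1 a).const_mul _) (by
      refine Summable.of_nonneg_of_le (fun a => integral_nonneg fun z => norm_nonneg _)
        (fun a => ?_) ((Real.summable_pow_div_factorial ‖c‖).mul_right (∫ z, ‖h z‖ ∂dA))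
      rw [← integral_const_mul]
      refine integral_mono_ae ((mul_int hh hu hu1 a).const_mul _).norm (hh.norm.const_mul _) ?_
      filter_upwards [ae_ball] with z hz
      rw [norm_mul, norm_div, norm_pow, norm_mul, norm_pow, Complex.norm_natCast]
      refine mul_le_mul_of_nonneg_left ?_ (by positivity)
      exact mul_le_of_le_one_right (norm_nonneg _) (pow_le_one₀ (norm_nonneg _) (hu1 z hz)))
  have h2 : ∫ z, ∑' a : ℕ, c ^ a / (a.factorial : ℂ) * (h z * u z ^ a) ∂dA =
      ∫ z, h z * Complex.exp (c * u z) ∂dA := by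
    refine integral_congr_ae (Eventually.of_forall fun z => ?_)
    have h3 : HasSum (fun a : ℕ => c ^ a / (a.factorial : ℂ) * (h z * u z ^ a))
        (h z * Complex.exp (c * u z)) := by
      have h4 := (NormedSpace.expSeries_div_hasSum_exp (c * u z)).mul_left (h z)
      rw [← Complex.exp_eq_exp_ℂ] at h4
      refine h4.congr_fun ?_
      intro a
      simp only [mul_pow]
      ring
    exact h3.tsum_eq
  rw [h2] at h1
  refine h1.congr_fun ?_
  intro a
  exact (integral_const_mul _ _).symm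

/-- the moments -/
noncomputable def MM (ψ : ℂ → ℂ) (a b : ℕ) : ℂ := ∫ z, ψ z * (conj z ^ a * z ^ b) ∂dA

/-- the mixed moments -/
noncomputable def Px (ψ : ℂ → ℂ) (x : ℕ) (ξ : ℂ) : ℂ :=
  ∫ z, (ψ z * conj z ^ x) * Complex.exp (ξ * z) ∂dA

lemma ph_sum1 {ψ : ℂ → ℂ} (hψ : Integrable ψ dA) (x : ℕ) (ξ : ℂ) :
    HasSum (fun y : ℕ => ξ ^ y / (y.factorial : ℂ) * MM ψ x y) (Px ψ x ξ) := by
  have h2 := hs (mul_int hψ Complex.continuous_conj (fun z hz => by simpa using hz.le) x)
    continuous_id (fun z hz => hz.le) ξ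
  refine h2.congr_fun ?_
  intro y
  congr 1
  unfold MM
  refine integral_congr_ae (Eventually.of_forall fun z => ?_)
  simp only [id]
  ring

lemma ph_sum2 {ψ : ℂ → ℂ} (hψ : Integrable ψ dA) (η ξ : ℂ) :
    HasSum (fun x : ℕ => η ^ x / (x.factorial : ℂ) * Px ψ x ξ) (Ph ψ η ξ) := by
  have hExp : Integrable (fun z => ψ z * Complex.exp (ξ * z)) dA := by
    refine (ph_int hψ 0 ξ).congr (Eventually.of_forall fun z => ?_)
    simp
  have h2 := hs hExp Complex.continuous_conj (fun z hz => by simpa using hz.le) η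
  have h3 : ∫ z, ψ z * Complex.exp (ξ * z) * Complex.exp (η * conj z) ∂dA = Ph ψ η ξ := by
    unfold Ph
    refine integral_congr_ae (Eventually.of_forall fun z => ?_)
    simp only
    rw [Complex.exp_add]
    ring
  rw [h3] at h2
  refine h2.congr_fun ?_
  intro x
  congr 1
  unfold Px
  refine integral_congr_ae (Eventually.of_forall fun z => ?_)
  simp only
  ring

/-- the factorisation passes to the exponentials -/
lemma ph_factor {ψ : ℂ → ℂ} (hψ : Integrable ψ dA) {m : ℕ} {a b : Fin m → ℕ}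
    {C : Matrix (Fin m) (Fin m) ℂ}
    (h : ∀ x y, MM ψ x y = ∑ j, ∑ i, MM ψ x (b j) * (C j i * MM ψ (a i) y)) (η ξ : ℂ) :
    Ph ψ η ξ = ∑ j, (∫ z, (ψ z * z ^ b j) * Complex.exp (η * conj z) ∂dA) *
      ∑ i, C j i * Px ψ (a i) ξ := by
  have hcjc : Continuous fun z : ℂ => conj z := Complex.continuous_conj
  -- first variable
  have hA : ∀ x : ℕ, Px ψ x ξ = ∑ j, ∑ i, MM ψ x (b j) * (C j i * Px ψ (a i) ξ) := by
    intro x
    refine (ph_sum1 hψ x ξ).unique ?_
    have h3 : HasSum (fun y : ℕ => ∑ j, ∑ i, MM ψ x (b j) * (C j i *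
        (ξ ^ y / (y.factorial : ℂ) * MM ψ (a i) y)))
        (∑ j, ∑ i, MM ψ x (b j) * (C j i * Px ψ (a i) ξ)) :=
      hasSum_sum fun j _ => hasSum_sum fun i _ => ((ph_sum1 hψ (a i) ξ).mul_left _).mul_left _
    refine h3.congr_fun ?_
    intro y
    rw [h x y, Finset.mul_sum]
    refine Finset.sum_congr rfl fun j _ => ?_
    rw [Finset.mul_sum]
    exact Finset.sum_congr rfl fun i _ => by ring
  -- second variable
  have hC : ∀ j, HasSum (fun x : ℕ => η ^ x / (x.factorial : ℂ) * MM ψ x (b j))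
      (∫ z, (ψ z * z ^ b j) * Complex.exp (η * conj z) ∂dA) := by
    intro j
    have h2 := hs (mul_int hψ continuous_id (fun z hz => hz.le) (b j)) hcjc
      (fun z hz => by simpa using hz.le) η
    refine h2.congr_fun ?_
    intro y
    congr 1
    unfold MM
    refine integral_congr_ae (Eventually.of_forall fun z => ?_)
    simp only [id]
    ring
  refine (ph_sum2 hψ η ξ).unique ?_
  have h3 : HasSum (fun x : ℕ => ∑ j, (η ^ x / (x.factorial : ℂ) * MM ψ x (b j)) *
      ∑ i, C j i * Px ψ (a i) ξ)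
      (∑ j, (∫ z, (ψ z * z ^ b j) * Complex.exp (η * conj z) ∂dA) *
        ∑ i, C j i * Px ψ (a i) ξ) :=
    hasSum_sum fun j _ => (hC j).mul_right _
  refine h3.congr_fun ?_
  intro x
  rw [hA x, Finset.mul_sum]
  refine Finset.sum_congr rfl fun j _ => ?_
  rw [Finset.mul_sum, Finset.mul_sum]
  exact Finset.sum_congr rfl fun i _ => by ring

/-- differentiability -/
lemma ph_diff {ψ : ℂ → ℂ} (hψ : Integrable ψ dA) (η p q : ℂ) :
    Differentiable ℂ fun t : ℂ => Ph ψ η (p + t * q) := by
  intro t0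
  have h := hasDerivAt_integral_of_dominated_loc_of_deriv_le (μ := dA)
    (F := fun (t : ℂ) (z : ℂ) => ψ z * Complex.exp (η * conj z + (p + t * q) * z))
    (F' := fun (t : ℂ) (z : ℂ) => ψ z * (Complex.exp (η * conj z + (p + t * q) * z) * (q * z)))
    (bound := fun z => ‖ψ z‖ * (Real.exp (‖η‖ + (‖p‖ + (‖t0‖ + 1) * ‖q‖)) * ‖q‖))
    (x₀ := t0) (s := ball t0 1) (ball_mem_nhds t0 one_pos)
    (Eventually.of_forall fun t => (ph_int hψ η (p + t * q)).aestronglyMeasurable)
    (ph_int hψ η (p + t0 * q))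
    (hψ.aestronglyMeasurable.mul (Continuous.aestronglyMeasurable (by fun_prop)))
    (by
      filter_upwards [ae_ball] with z hz t ht
      rw [norm_mul, norm_mul, norm_mul]
      refine mul_le_mul_of_nonneg_left ?_ (norm_nonneg _)
      refine mul_le_mul ((exp_bd hz).trans (Real.exp_le_exp.2 ?_))
        (mul_le_of_le_one_right (norm_nonneg _) hz.le) (by positivity) (Real.exp_pos _).le
      have h1 : ‖t‖ ≤ ‖t0‖ + 1 := by
        have h2 : ‖t - t0‖ < 1 := by simpa [dist_eq_norm] using ht
        have h3 : t = t0 + (t - t0) := by ring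
        calc ‖t‖ = ‖t0 + (t - t0)‖ := by rw [← h3]
          _ ≤ ‖t0‖ + ‖t - t0‖ := norm_add_le _ _
          _ ≤ ‖t0‖ + 1 := by linarith
      have h4 : ‖p + t * q‖ ≤ ‖p‖ + (‖t0‖ + 1) * ‖q‖ := by
        refine (norm_add_le _ _).trans (add_le_add le_rfl ?_)
        rw [norm_mul]
        exact mul_le_mul_of_nonneg_right h1 (norm_nonneg _)
      linarith)
    (hψ.norm.mul_const _)
    (by
      filter_upwards with z t _
      have h1 : HasDerivAt (fun t : ℂ => η * conj z + (p + t * q) * z) (q * z) t := by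
        have h2 := (((hasDerivAt_id t).mul_const q).const_add p).mul_const z
        have h3 := h2.const_add (η * conj z)
        simpa using h3
      exact (h1.cexp).const_mul (ψ z))
  exact h.2.differentiableAt

lemma ph_conj (ψ : ℂ → ℂ) (η ξ : ℂ) :
    conj (Ph ψ η ξ) = Ph (fun z => conj (ψ z)) (conj ξ) (conj η) := by
  unfold Ph
  rw [← integral_conj]
  refine integral_congr_ae (Eventually.of_forall fun z => ?_)
  simp only [map_mul]
  rw [← Complex.exp_conj]
  simp only [map_mul, map_add, Complex.conj_conj]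
  rw [add_comm]

lemma conj_int {ψ : ℂ → ℂ} (hψ : Integrable ψ dA) : Integrable (fun z => conj (ψ z)) dA := by
  refine hψ.mono (Complex.continuous_conj.comp_aestronglyMeasurable hψ.aestronglyMeasurable) ?_
  exact Eventually.of_forall fun z => by rw [RCLike.norm_conj]

/-- Riemann-Lebesgue -/
lemma ph_tendsto (ψ : ℂ → ℂ) (η ξ : ℂ) :
    Tendsto (fun s : ℂ => Ph ψ (η - conj s) (ξ + s)) (cocompact ℂ) (𝓝 0) := by
  set f : ℂ → ℂ := (ball (0 : ℂ) 1).indicator
    (fun z => ψ z * Complex.exp (η * conj z + ξ * z)) with hf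
  have hRL := tendsto_integral_exp_inner_smul_cocompact (V := ℂ) f
  -- the change of variable
  set w : ℂ → ℂ := fun s => -(Complex.I * conj s) / π with hw
  have hwt : Tendsto w (cocompact ℂ) (cocompact ℂ) := by
    have hpi : ((π : ℝ) : ℂ) ≠ 0 := by exact_mod_cast Real.pi_ne_zero
    have h1 : Tendsto (fun s : ℂ => ‖w s‖) (cocompact ℂ) atTop := by
      have e : (fun s : ℂ => ‖w s‖) = fun s => π⁻¹ * ‖s‖ := by
        funext s
        simp only [hw]
        rw [norm_div, norm_neg, norm_mul, Complex.norm_I, one_mul, RCLike.norm_conj,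
          Complex.norm_real, Real.norm_eq_abs, abs_of_pos Real.pi_pos]
        ring
      rw [e]
      exact (tendsto_norm_cocompact_atTop).const_mul_atTop (inv_pos.2 Real.pi_pos)
    rw [← Metric.cobounded_eq_cocompact] at h1 ⊢
    exact tendsto_norm_atTop_iff_cobounded.1 h1
  have h2 := hRL.comp hwt
  have h3 : ∀ s, Ph ψ (η - conj s) (ξ + s) =
      ((ENNReal.ofReal π)⁻¹).toReal • ∫ v, (Real.fourierChar (-(inner ℝ v (w s)))) • f v := by
    intro s
    unfold Ph dA
    rw [integral_smul_measure]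
    congr 1
    rw [← integral_indicator measurableSet_ball]
    refine integral_congr_ae (Eventually.of_forall fun v => ?_)
    by_cases hv : v ∈ ball (0 : ℂ) 1
    · simp only [hf, Set.indicator_of_mem hv]
      rw [Circle.smul_def, smul_eq_mul, Real.fourierChar_apply]
      have e1 : (η - conj s) * conj v + (ξ + s) * v = (η * conj v + ξ * v) +
          ((2 * π * -(inner ℝ v (w s)) : ℝ) : ℂ) * Complex.I := by
        have e2 : ((2 * π * -(inner ℝ v (w s)) : ℝ) : ℂ) = 2 * (s.im * v.re + s.re * v.im) := by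
          simp only [hw]
          rw [Complex.inner]
          have e3 : (-(Complex.I * conj s) / π * conj v).re =
              -((s.im * v.re + s.re * v.im) / π) := by
            have e4 : -(Complex.I * conj s) / π * conj v =
                (-(conj v * (Complex.I * conj s))) / π := by ring
            rw [e4, Complex.div_ofReal_re]
            simp
            ring
          rw [e3]
          push_cast
          have hpi : ((π : ℝ) : ℂ) ≠ 0 := by exact_mod_cast Real.pi_ne_zero
          field_simp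
        rw [e2]
        apply Complex.ext
        · simp
          ring
        · simp
          ring
      rw [e1, Complex.exp_add]
      ring
    · simp only [hf, Set.indicator_of_notMem hv, smul_zero]
  simp only [h3]
  have h4 := h2.const_smul (((ENNReal.ofReal π)⁻¹).toReal)
  rw [smul_zero] at h4
  exact h4

/-- uniqueness of the coefficients -/
lemma coeff_zero {μ : ℕ → ℂ} (h : ∀ c : ℂ, HasSum (fun a : ℕ => c ^ a / (a.factorial : ℂ) * μ a) 0)
    (a : ℕ) : μ a = 0 := by
  set p : FormalMultilinearSeries ℂ ℂ ℂ :=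
    FormalMultilinearSeries.ofScalars ℂ (fun n : ℕ => μ n / (n.factorial : ℂ)) with hp
  have h1 : HasFPowerSeriesAt (0 : ℂ → ℂ) p 0 := by
    rw [hasFPowerSeriesAt_iff]
    refine Eventually.of_forall fun z => ?_
    refine (h z).congr_fun ?_
    intro n
    rw [hp, FormalMultilinearSeries.coeff_ofScalars, smul_eq_mul]
    ring
  have h2 := h1.eq_zero
  have h3 : p.coeff a = 0 := by rw [h2]; rfl
  rw [hp, FormalMultilinearSeries.coeff_ofScalars] at h3
  exact (div_eq_zero_iff.1 h3).resolve_right (by exact_mod_cast a.factorial_ne_zero)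

lemma det_diff {m : ℕ} {F : Fin m → Fin m → ℂ → ℂ} (h : ∀ i j, Differentiable ℂ (F i j)) :
    Differentiable ℂ fun t => Matrix.det fun i j => F i j t := by
  have e : (fun t => Matrix.det fun i j => F i j t) = fun t => ∑ σ : Equiv.Perm (Fin m),
      ((Equiv.Perm.sign σ : ℤ) : ℂ) * ∏ i, F (σ i) i t := by
    funext t
    exact Matrix.det_apply' _
  rw [e]
  exact Differentiable.fun_sum fun σ _ =>
    (Differentiable.fun_finsetProd fun i _ => h _ _).const_mul _

/-- **The finite rank theorem.** -/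
theorem finite_rank {ψ : ℂ → ℂ} (hψ : Integrable ψ dA) (N : ℕ)
    (h : ∀ a b : Fin N → ℕ, (km (MM ψ) a b).det = 0) : ψ =ᵐ[dA] 0 := by
  classical
  obtain ⟨m, a, b, -, -, hab⟩ := factor (MM ψ) N h
  have h2 : ∀ (η ξ : Fin (m + 1) → ℂ), (km (Ph ψ) η ξ).det = 0 :=
    minors (Ph ψ) (fun j η => ∫ z, (ψ z * z ^ b j) * Complex.exp (η * conj z) ∂dA)
      (fun j ξ => ∑ i, (km (MM ψ) a b)⁻¹ j i * Px ψ (a i) ξ) (ph_factor hψ hab)
  obtain ⟨r, η0, ξ0, -, hdet, hfac⟩ := factor (Ph ψ) (m + 1) h2
  rcases Nat.eq_zero_or_pos r with h0 | h0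
  · subst h0
    have hP : ∀ η ξ, Ph ψ η ξ = 0 := fun η ξ => by
      rw [hfac]
      simp
    have hPx : ∀ x ξ, Px ψ x ξ = 0 := fun x ξ =>
      coeff_zero (fun η => by rw [← hP η ξ]; exact ph_sum2 hψ η ξ) x
    have hM : ∀ x y, MM ψ x y = 0 := fun x y =>
      coeff_zero (fun ξ => by rw [← hPx x ξ]; exact ph_sum1 hψ x ξ) y
    exact ae_zero_of_moments hψ fun a b _ _ => hM a b
  · exfalso
    have : Nonempty (Fin r) := ⟨⟨0, h0⟩⟩
    set D0 := (km (Ph ψ) η0 ξ0).det with hD0
    have hfd : ∀ η ξ : Fin r → ℂ, (km (Ph ψ) η ξ).det * D0 =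
        (km (Ph ψ) η ξ0).det * (km (Ph ψ) η0 ξ).det := by
      intro η ξ
      have e : km (Ph ψ) η ξ = km (Ph ψ) η ξ0 * ((km (Ph ψ) η0 ξ0)⁻¹ * km (Ph ψ) η0 ξ) := by
        ext i j
        rw [Matrix.mul_apply]
        simp only [Matrix.mul_apply]
        conv_lhs => rw [km, hfac]
        refine Finset.sum_congr rfl fun j' _ => ?_
        rw [Finset.mul_sum]
        rfl
      rw [e, Matrix.det_mul, Matrix.det_mul, Matrix.det_nonsing_inv, Ring.inverse_eq_inv]
      rw [← hD0]
      field_simp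
    set G1 : (Fin r → ℂ) → ℂ := fun ξ =>
      Matrix.det fun i j : Fin r => Ph (fun z => conj (ψ z)) (conj (ξ0 j)) (-(ξ i)) with hG1
    set G2 : (Fin r → ℂ) → ℂ := fun ξ => (km (Ph ψ) η0 ξ).det with hG2
    have hG1c : ∀ ξ : Fin r → ℂ, G1 ξ = conj ((km (Ph ψ) (fun i => -conj (ξ i)) ξ0).det) := by
      intro ξ
      simp only [hG1]
      rw [RingHom.map_det]
      congr 1
      funext i j
      rw [RingHom.mapMatrix_apply, Matrix.map_apply, km, ph_conj, map_neg, Complex.conj_conj]
    have hd1 : ∀ ξ v : Fin r → ℂ, Differentiable ℂ fun t : ℂ => G1 (fun i => ξ i + t * v i) := by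
      intro ξ v
      simp only [hG1]
      refine det_diff fun i j => ?_
      have := ph_diff (conj_int hψ) (conj (ξ0 j)) (-(ξ i)) (-(v i))
      convert this using 2 with t
      ring_nf
    have hd2 : ∀ ξ v : Fin r → ℂ, Differentiable ℂ fun t : ℂ => G2 (fun i => ξ i + t * v i) := by
      intro ξ v
      simp only [hG2]
      exact det_diff fun i j => ph_diff hψ _ _ _
    -- Liouville
    have hzero : ∀ ξ : Fin r → ℂ, G1 ξ * G2 ξ = 0 := by
      intro ξ
      have hE : Differentiable ℂ fun t : ℂ => G1 (fun i => ξ i + t * 1) * G2 (fun i => ξ i + t * 1) :=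
        (hd1 ξ fun _ => 1).mul (hd2 ξ fun _ => 1)
      have hnorm : ∀ t : ℂ, ‖G1 (fun i => ξ i + t * 1) * G2 (fun i => ξ i + t * 1)‖ =
          ‖(km (Ph ψ) (fun i => -conj (ξ i) - conj t) (fun i => ξ i + t)).det‖ * ‖D0‖ := by
        intro t
        rw [← norm_mul, hfd, norm_mul, norm_mul, hG1c, RCLike.norm_conj]
        simp only [hG2, mul_one, map_add]
        congr 4
        funext i
        ring
      have htend : Tendsto (fun t : ℂ => G1 (fun i => ξ i + t * 1) * G2 (fun i => ξ i + t * 1))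
          (cocompact ℂ) (𝓝 0) := by
        rw [tendsto_zero_iff_norm_tendsto_zero]
        simp only [hnorm]
        have h3 : Tendsto (fun t : ℂ => km (Ph ψ) (fun i => -conj (ξ i) - conj t)
            (fun i => ξ i + t)) (cocompact ℂ) (𝓝 (0 : Matrix (Fin r) (Fin r) ℂ)) := by
          refine tendsto_pi_nhds.2 fun i => tendsto_pi_nhds.2 fun j => ?_
          exact ph_tendsto ψ _ _
        have h4 : Continuous fun M : Matrix (Fin r) (Fin r) ℂ => M.det :=
          Continuous.matrix_det continuous_id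
        have h5 := (h4.tendsto 0).comp h3
        rw [Matrix.det_zero] at h5
        have h6 := h5.norm.mul_const ‖D0‖
        rw [norm_zero, zero_mul] at h6
        exact h6
      have := hE.apply_eq_of_tendsto_cocompact 0 htend
      simpa using this
    -- the line
    set p : Fin r → ℂ := fun i => -conj (η0 i) with hp
    have hG1p : G1 p ≠ 0 := by
      rw [hG1c, map_ne_zero]
      simp only [hp, map_neg, Complex.conj_conj, neg_neg]
      exact hdet
    have hG2q : G2 ξ0 ≠ 0 := hdet
    have hA : AnalyticOnNhd ℂ (fun t : ℂ => G1 (fun i => p i + t * (ξ0 i - p i))) Set.univ :=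
      (hd1 p _).differentiableOn.analyticOnNhd isOpen_univ
    have hB : AnalyticOnNhd ℂ (fun t : ℂ => G2 (fun i => p i + t * (ξ0 i - p i))) Set.univ :=
      (hd2 p _).differentiableOn.analyticOnNhd isOpen_univ
    rcases hA.eq_zero_or_eq_zero_of_mul_eq_zero hB (fun t _ => hzero _) isPreconnected_univ
      with h1 | h1
    · refine hG1p ?_
      have := h1 0 (Set.mem_univ _)
      simpa using this
    · refine hG2q ?_
      have := h1 1 (Set.mem_univ _)
      simpa using this

end Q194.TP
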