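import Mathlib

/-!
# Kernels of finite rank
-/

namespace Q194.TP

open Finset Matrix

variable {K : Type*} [Field K] {α β : Type*}

/-- the matrix of a kernel -/
def km (M : α → β → K) {m : ℕ} (a : Fin m → α) (b : Fin m → β) : Matrix (Fin m) (Fin m) K :=
  fun i j => M (a i) (b j)

/-- a kernel all of whose minors of some size vanish is of finite rank -/
theorem factor (M : α → β → K) (N : ℕ)
    (h : ∀ (a : Fin N → α) (b : Fin N → β), (km M a b).det = 0) :
    ∃ (m : ℕ) (a : Fin m → α) (b : Fin m → β), m < N ∧ (km M a b).det ≠ 0 ∧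
      ∀ x y, M x y = ∑ j, ∑ i, M x (b j) * ((km M a b)⁻¹ j i * M (a i) y) := by
  classical
  have hex : ∃ N : ℕ, ∀ (a : Fin N → α) (b : Fin N → β), (km M a b).det = 0 := ⟨N, h⟩
  set k := Nat.find hex with hk
  have hk1 : ∀ (a : Fin k → α) (b : Fin k → β), (km M a b).det = 0 := Nat.find_spec hex
  have hkN : k ≤ N := Nat.find_min' hex h
  rcases Nat.eq_zero_or_pos k with h0 | h0
  · exfalso
    have h1 : ∀ (m : ℕ), m = 0 → ¬ ∀ (a : Fin m → α) (b : Fin m → β), (km M a b).det = 0 := by
      rintro m rfl h2
      have := h2 Fin.elim0 Fin.elim0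
      rw [Matrix.det_fin_zero] at this
      exact one_ne_zero this
    exact h1 k h0 hk1
  · obtain ⟨m, hm⟩ := Nat.exists_eq_succ_of_ne_zero h0.ne'
    have hmin := Nat.find_min hex (m := m) (by rw [← hk, hm]; exact Nat.lt_succ_self m)
    push Not at hmin
    obtain ⟨a, b, hab⟩ := hmin
    refine ⟨m, a, b, by omega, hab, fun x y => ?_⟩
    have hunit : IsUnit (km M a b).det := isUnit_iff_ne_zero.2 hab
    rw [hm] at hk1
    have hdet := hk1 (Fin.cons x a) (Fin.cons y b)
    obtain ⟨v, hv, hv2⟩ := Matrix.exists_mulVec_eq_zero_iff.2 hdet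
    have hrow : ∀ i : Fin m, M (a i) y * v 0 + ∑ j : Fin m, M (a i) (b j) * v j.succ = 0 := by
      intro i
      have h3 := congrFun hv2 i.succ
      simp only [Matrix.mulVec, dotProduct, km, Pi.zero_apply] at h3
      rw [Fin.sum_univ_succ] at h3
      simpa using h3
    have hrow0 : M x y * v 0 + ∑ j : Fin m, M x (b j) * v j.succ = 0 := by
      have h3 := congrFun hv2 0
      simp only [Matrix.mulVec, dotProduct, km, Pi.zero_apply] at h3
      rw [Fin.sum_univ_succ] at h3
      simpa using h3
    have hmul : ∀ w : Fin m → K, (km M a b)⁻¹.mulVec ((km M a b).mulVec w) = w := by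
      intro w
      rw [Matrix.mulVec_mulVec, Matrix.nonsing_inv_mul _ hunit, Matrix.one_mulVec]
    have hw : (km M a b).mulVec (fun j : Fin m => v j.succ) = fun i => -(v 0 * M (a i) y) := by
      funext i
      simp only [Matrix.mulVec, dotProduct, km]
      have := hrow i
      linear_combination this
    have hsol := hmul (fun j : Fin m => v j.succ)
    rw [hw] at hsol
    have hv0 : v 0 ≠ 0 := by
      intro h0
      refine hv ?_
      funext j
      refine Fin.cases h0 (fun j => ?_) j
      have h4 := congrFun hsol j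
      rw [h0] at h4
      simp only [zero_mul, neg_zero] at h4
      rw [Pi.zero_apply, ← h4]
      simp [Matrix.mulVec, dotProduct]
    have hvj : ∀ j : Fin m, v j.succ = - (v 0 * ∑ i, (km M a b)⁻¹ j i * M (a i) y) := by
      intro j
      have h4 := congrFun hsol j
      rw [← h4]
      simp only [Matrix.mulVec, dotProduct, mul_sum, ← sum_neg_distrib]
      exact sum_congr rfl fun i _ => by ring
    have h5 : v 0 * (M x y - ∑ j, M x (b j) * ∑ i, (km M a b)⁻¹ j i * M (a i) y) = 0 := by
      rw [← hrow0]
      simp only [hvj]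
      rw [mul_sub, mul_sum, sub_eq_add_neg, ← sum_neg_distrib]
      congr 1
      · ring
      · exact sum_congr rfl fun j _ => by ring
    have h6 := (mul_eq_zero.1 h5).resolve_left hv0
    rw [sub_eq_zero.1 h6]
    exact sum_congr rfl fun j _ => by rw [mul_sum]

/-- a kernel of rank at most `m` has vanishing minors of size `m + 1` -/
theorem minors {m : ℕ} (M : α → β → K) (u : Fin m → α → K) (v : Fin m → β → K)
    (h : ∀ x y, M x y = ∑ j, u j x * v j y) (a : Fin (m + 1) → α) (b : Fin (m + 1) → β) :
    (km M a b).det = 0 := by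
  classical
  set V : (Fin (m + 1) → K) →ₗ[K] (Fin m → K) :=
    { toFun := fun w j => ∑ i, v j (b i) * w i
      map_add' := fun w w' => by
        funext j
        simp only [Pi.add_apply, mul_add, sum_add_distrib]
      map_smul' := fun c w => by
        funext j
        simp only [Pi.smul_apply, smul_eq_mul, RingHom.id_apply, mul_sum]
        exact sum_congr rfl fun i _ => by ring } with hV
  have hker : LinearMap.ker V ≠ ⊥ := by
    refine LinearMap.ker_ne_bot_of_finrank_lt ?_
    simp
  obtain ⟨w, hw, hw0⟩ := (Submodule.ne_bot_iff _).1 hker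
  refine Matrix.exists_mulVec_eq_zero_iff.1 ⟨w, hw0, ?_⟩
  funext i
  have h1 : ∀ j, ∑ l, v j (b l) * w l = 0 := fun j => congrFun (LinearMap.mem_ker.1 hw) j
  simp only [Matrix.mulVec, dotProduct, km, h, Pi.zero_apply, sum_mul]
  rw [sum_comm]
  refine sum_eq_zero fun j _ => ?_
  have : ∀ l, u j (a i) * v j (b l) * w l = u j (a i) * (v j (b l) * w l) := fun l => by ring
  simp only [this]
  rw [← mul_sum, h1, mul_zero]

end Q194.TP
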