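import Pool.Agent.Q194.TP.Main

/-!
# Zero products of Toeplitz operators: the end of the proof
-/

namespace Q194.TP

open MeasureTheory Metric Topology Filter Real
open scoped ENNReal ComplexConjugate

lemma hem' {w : ℂ} (hw : ‖w‖ = 1) : MeasurableEmbedding fun z : ℂ => w * z := by
  have hw0 : w ≠ 0 := by rintro rfl; simp at hw
  exact (Homeomorph.mulLeft₀ w hw0).measurableEmbedding

/-- a radial function with vanishing moments -/
lemma radial_moments {ψ : ℂ → ℂ} (hψ : Integrable ψ dA)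
    (hrot : ∀ (w z : ℂ), ‖w‖ = 1 → ψ (w * z) = ψ z)
    (h : ∀ k : ℕ, 1 ≤ k → ∫ z, ψ z * ((‖z‖ ^ 2 : ℝ) : ℂ) ^ k ∂dA = 0) : ψ =ᵐ[dA] 0 := by
  refine ae_zero_of_moments hψ fun a b ha hb => ?_
  by_cases hab : a = b
  · subst hab
    rw [← h a ha]
    refine integral_congr_ae (Eventually.of_forall fun z => ?_)
    have : ((‖z‖ ^ 2 : ℝ) : ℂ) = z * conj z := by
      rw [Complex.mul_conj, Complex.normSq_eq_norm_sq]
    simp only [this, mul_pow]
    ring
  · have hd : ((b : ℝ) - a) ≠ 0 := sub_ne_zero.2 (by exact_mod_cast Ne.symm hab)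
    set w : ℂ := Complex.exp ((π / ((b : ℝ) - a) : ℝ) * Complex.I) with hw
    have hwn : ‖w‖ = 1 := Complex.norm_exp_ofReal_mul_I _
    have hwab : conj w ^ a * w ^ b = -1 := by
      have hcw : conj w = Complex.exp (-((π / ((b : ℝ) - a) : ℝ) * Complex.I)) := by
        rw [hw, ← Complex.exp_conj]
        congr 1
        simp only [map_mul, Complex.conj_ofReal, Complex.conj_I]
        ring
      rw [hcw, hw, ← Complex.exp_nat_mul, ← Complex.exp_nat_mul, ← Complex.exp_add]
      have : (a : ℂ) * -((π / ((b : ℝ) - a) : ℝ) * Complex.I) +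
          (b : ℂ) * ((π / ((b : ℝ) - a) : ℝ) * Complex.I) = π * Complex.I := by
        have hd' : (b : ℂ) - a ≠ 0 := by exact_mod_cast hd
        push_cast
        field_simp
        ring
      rw [this, Complex.exp_pi_mul_I]
    set C := ∫ z, ψ z * (conj z ^ a * z ^ b) ∂dA with hC
    have h1 : C = -C := by
      have h2 := (rot hwn).integral_comp (hem' hwn) (fun z => ψ z * (conj z ^ a * z ^ b))
      rw [← hC] at h2
      conv_lhs => rw [← h2]
      rw [hC, ← integral_neg]
      refine integral_congr_ae (Eventually.of_forall fun z => ?_)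
      simp only [hrot w z hwn, map_mul, mul_pow]
      calc ψ z * (conj w ^ a * conj z ^ a * (w ^ b * z ^ b)) =
          (conj w ^ a * w ^ b) * (ψ z * (conj z ^ a * z ^ b)) := by ring
        _ = _ := by rw [hwab]; ring
    exact self_eq_neg.1 h1

/-- circles are null sets -/
lemma poly_ae {n : ℕ} {c : Fin n → ℂ} (hc : c ≠ 0) :
    ∀ᵐ z ∂dA, ∑ j : Fin n, ((‖z‖ ^ 2 : ℝ) : ℂ) ^ (j : ℕ) * c j ≠ 0 := by
  set p : Polynomial ℂ := ∑ j : Fin n, Polynomial.monomial (j : ℕ) (c j) with hp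
  have hp0 : p ≠ 0 := by
    intro h0
    refine hc ?_
    funext j
    have h1 := congrArg (fun q : Polynomial ℂ => q.coeff (j : ℕ)) h0
    simp only [hp, Polynomial.finsetSum_coeff, Polynomial.coeff_monomial,
      Polynomial.coeff_zero] at h1
    rw [Finset.sum_eq_single j] at h1
    · simpa using h1
    · intro i _ hi
      rw [if_neg]
      intro h2
      exact hi (Fin.ext h2)
    · intro h2
      exact absurd (Finset.mem_univ j) h2
  have heval : ∀ x : ℂ, p.eval x = ∑ j : Fin n, x ^ (j : ℕ) * c j := by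
    intro x
    rw [hp, Polynomial.eval_finsetSum]
    refine Finset.sum_congr rfl fun j _ => ?_
    rw [Polynomial.eval_monomial, mul_comm]
  have hnull : ∀ᵐ z ∂dA, ∀ r ∈ p.roots.toFinset, z ∉ sphere (0 : ℂ) (√ r.re) := by
    rw [Filter.eventually_all_finset]
    intro r _
    refine dA_ac.ae_le ?_
    refine ae_restrict_of_ae ?_
    have h1 : volume (sphere (0 : ℂ) (√ r.re)) = 0 := Measure.addHaar_sphere volume 0 _
    rw [ae_iff]
    have h2 : {a : ℂ | ¬ a ∉ sphere (0 : ℂ) (√ r.re)} = sphere (0 : ℂ) (√ r.re) := by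
      ext a
      exact not_not
    rw [h2]
    exact h1
  filter_upwards [hnull] with z hz h0
  rw [← heval] at h0
  have hmem : ((‖z‖ ^ 2 : ℝ) : ℂ) ∈ p.roots.toFinset := by
    rw [Multiset.mem_toFinset, Polynomial.mem_roots hp0]
    exact h0
  refine hz _ hmem ?_
  rw [mem_sphere, dist_zero_right, Complex.ofReal_re, Real.sqrt_sq (norm_nonneg z)]

/-- the radial symbol vanishes if the Hankel determinants vanish -/
lemma radial_zero {n : ℕ} {f : Lp ℂ ∞ dA} {F : ℝ → ℂ}
    (hf : f =ᵐ[dA] fun z => F ‖z‖) (k0 : ℕ)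
    (h : ∀ k, k0 ≤ k → (hk (fun k : ℕ => Mom f (k : ℂ)) n k).det = 0) : f = 0 := by
  obtain ⟨c, k1, hc, hck⟩ := kronecker n (fun k : ℕ => Mom f (k : ℂ)) k0 h
  set ψ : ℂ → ℂ := fun z => F ‖z‖ * ((∑ j : Fin n, ((‖z‖ ^ 2 : ℝ) : ℂ) ^ (j : ℕ) * c j) *
    ((‖z‖ ^ 2 : ℝ) : ℂ) ^ k1) with hψd
  have hfint : Integrable f dA := (Lp.memLp f).integrable (by norm_num)
  have hFint : Integrable (fun z : ℂ => F ‖z‖) dA := hfint.congr hf
  have hterm : ∀ k : ℕ, Integrable (fun z : ℂ => F ‖z‖ * ((‖z‖ ^ 2 : ℝ) : ℂ) ^ k) dA := fun k =>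
    int_shift hFint k
  have hψe : ∀ z, ψ z = ∑ j : Fin n, c j * (F ‖z‖ * ((‖z‖ ^ 2 : ℝ) : ℂ) ^ (k1 + j)) := by
    intro z
    simp only [hψd]
    rw [Finset.sum_mul, Finset.mul_sum]
    exact Finset.sum_congr rfl fun j _ => by rw [pow_add]; ring
  have hψ : Integrable ψ dA := by
    have : Integrable (fun z => ∑ j : Fin n, c j * (F ‖z‖ * ((‖z‖ ^ 2 : ℝ) : ℂ) ^ (k1 + j))) dA :=
      integrable_finsetSum _ fun j _ => (hterm _).const_mul _
    exact this.congr (Eventually.of_forall fun z => (hψe z).symm)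
  have hzero : ψ =ᵐ[dA] 0 := by
    refine radial_moments hψ (fun w z hw => ?_) fun k _ => ?_
    · simp only [hψd]
      rw [norm_mul, hw, one_mul]
    · have e1 : ∫ z, ψ z * ((‖z‖ ^ 2 : ℝ) : ℂ) ^ k ∂dA =
          ∑ j : Fin n, Mom f ((k1 + k + j : ℕ) : ℂ) * c j := by
        have e2 : ∀ z, ψ z * ((‖z‖ ^ 2 : ℝ) : ℂ) ^ k =
            ∑ j : Fin n, c j * (F ‖z‖ * ((‖z‖ ^ 2 : ℝ) : ℂ) ^ (k1 + k + j)) := by
          intro z
          rw [hψe, Finset.sum_mul]
          exact Finset.sum_congr rfl fun j _ => by rw [pow_add, pow_add, pow_add]; ring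
        simp only [e2]
        rw [integral_finsetSum _ fun j _ => (hterm _).const_mul _]
        refine Finset.sum_congr rfl fun j _ => ?_
        rw [integral_const_mul, mul_comm, Mom]
        congr 1
        refine integral_congr_ae ?_
        filter_upwards [hf] with z hz
        rw [hz, Complex.cpow_natCast]
      rw [e1]
      have := hck (k1 + k) (by omega)
      exact this
  rw [Lp.eq_zero_iff_ae_eq_zero]
  filter_upwards [hzero, poly_ae hc, ae_ne_zero, hf] with z h1 h2 h3 h4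
  rw [h4]
  simp only [hψd, Pi.zero_apply] at h1 ⊢
  refine (mul_eq_zero.1 h1).resolve_right (mul_ne_zero h2 (pow_ne_zero _ ?_))
  exact Complex.ofReal_ne_zero.2 (by positivity)

/-- Radial functions: `f(z)` depends only on `|z|` (almost everywhere). -/
def Radial (f : Lp ℂ ∞ dA) : Prop := ∃ F : ℝ → ℂ, f =ᵐ[dA] fun z => F ‖z‖

/-- a measurable bounded profile -/
lemma Radial.rep {f : Lp ℂ ∞ dA} (hf : Radial f) : ∃ (F : ℝ → ℂ) (R : ℝ), Measurable F ∧
    (∀ r, ‖F r‖ ≤ R) ∧ f =ᵐ[dA] fun z => F ‖z‖ := by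
  classical
  obtain ⟨F0, hF0⟩ := hf
  set fb : ℂ → ℂ := fun z => if ‖f z‖ ≤ ‖f‖ then f z else 0 with hfb
  have hfm : Measurable f := (Lp.stronglyMeasurable f).measurable
  have hfbm : Measurable fb := Measurable.ite (measurableSet_le hfm.norm measurable_const) hfm
    measurable_const
  have hfbB : ∀ z, ‖fb z‖ ≤ ‖f‖ := by
    intro z
    simp only [hfb]
    split_ifs with h
    · exact h
    · simp
  have hfbe : fb =ᵐ[dA] f := by
    have h1 : ∀ᵐ z ∂dA, ‖f z‖ ≤ ‖f‖ := by
      rw [Lp.norm_def]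
      have h2 := ae_le_eLpNormEssSup (f := f) (μ := dA)
      filter_upwards [h2] with z hz
      rw [eLpNorm_exponent_top]
      have h3 : eLpNormEssSup f dA ≠ ∞ := by
        rw [← eLpNorm_exponent_top]
        exact (Lp.memLp f).eLpNorm_ne_top
      exact (ENNReal.toReal_mono h3 hz : _)
    filter_upwards [h1] with z hz
    simp only [hfb, if_pos hz]
  set e : ℝ → ℂ := fun α => Complex.exp (α * Complex.I) with he
  have hen : ∀ α, ‖e α‖ = 1 := fun α => Complex.norm_exp_ofReal_mul_I α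
  have hrot : ∀ α, ∀ᵐ z ∂dA, fb (e α * z) = fb z := by
    intro α
    have h1 : ∀ᵐ z ∂dA, fb z = F0 ‖z‖ := by
      filter_upwards [hfbe, hF0] with z h1 h2
      rw [h1, h2]
    have h2 := (rot (hen α)).quasiMeasurePreserving.ae h1
    filter_upwards [h1, h2] with z h3 h4
    rw [h3, h4, norm_mul, hen, one_mul]
  have hmeas : Measurable fun p : ℝ × ℂ => fb (e p.1 * p.2) := by
    refine hfbm.comp ?_
    simp only [he]
    fun_prop
  have hcomm : ∀ᵐ z ∂dA, ∀ᵐ α ∂(volume.restrict (Set.Ioc 0 (2 * π))), fb (e α * z) = fb z := by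
    have hset : MeasurableSet {p : ℝ × ℂ | fb (e p.1 * p.2) = fb p.2} :=
      measurableSet_eq_fun hmeas (hfbm.comp measurable_snd)
    exact (Measure.ae_ae_comm hset).1 (Eventually.of_forall hrot)
  set F : ℝ → ℂ := fun r => ((2 : ℂ) * π)⁻¹ * ∫ α in Set.Ioc 0 (2 * π), fb (e α * (r : ℂ)) with hFd
  refine ⟨F, ‖f‖, ?_, fun r => ?_, ?_⟩
  · have h1 : StronglyMeasurable fun r : ℝ => ∫ α in Set.Ioc 0 (2 * π), fb (e α * (r : ℂ)) := by
      refine StronglyMeasurable.integral_prod_left'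
        (f := fun p : ℝ × ℝ => fb (e p.1 * (p.2 : ℂ))) ?_
      refine (hmeas.comp (g := fun p : ℝ × ℂ => fb (e p.1 * p.2)) (f := fun p : ℝ × ℝ =>
        ((p.1, (p.2 : ℂ)) : ℝ × ℂ)) (by fun_prop)).stronglyMeasurable
    exact h1.measurable.const_mul _
  · simp only [hFd]
    have h1 : ‖∫ α in Set.Ioc 0 (2 * π), fb (e α * (r : ℂ))‖ ≤ ‖f‖ * (2 * π) := by
      have h2 := norm_setIntegral_le_of_norm_le_const (μ := volume) (s := Set.Ioc 0 (2 * π))
        (f := fun α => fb (e α * (r : ℂ))) (C := ‖f‖) (by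
          rw [Real.volume_Ioc]; exact ENNReal.ofReal_lt_top) (fun α _ => hfbB _)
      rw [measureReal_def, Real.volume_Ioc, sub_zero, ENNReal.toReal_ofReal (by positivity)] at h2
      exact h2
    rw [norm_mul]
    have h3 : ‖((2 : ℂ) * π)⁻¹‖ = (2 * π)⁻¹ := by
      rw [norm_inv, norm_mul, Complex.norm_real, Complex.norm_two, Real.norm_eq_abs,
        abs_of_pos Real.pi_pos]
    rw [h3, inv_mul_le_iff₀ (by positivity)]
    linarith
  · filter_upwards [hcomm, hfbe] with z h1 h2
    rw [← h2]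
    simp only [hFd]
    have h3 : ∫ α in Set.Ioc 0 (2 * π), fb (e α * z) = ∫ α in Set.Ioc 0 (2 * π), fb z := by
      exact integral_congr_ae h1
    have h4 : ∫ α in Set.Ioc 0 (2 * π), fb (e α * ((‖z‖ : ℝ) : ℂ)) =
        ∫ α in Set.Ioc 0 (2 * π), fb (e α * z) := by
      rw [← intervalIntegral.integral_of_le (by positivity),
        ← intervalIntegral.integral_of_le (by positivity)]
      have h5 : ∀ α : ℝ, fb (e α * z) = (fun β : ℝ => fb (e β * ((‖z‖ : ℝ) : ℂ))) (α + Complex.arg z) := by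
        intro α
        simp only [he]
        congr 1
        conv_lhs => rw [← Complex.norm_mul_exp_arg_mul_I z]
        rw [Complex.ofReal_add, add_mul, Complex.exp_add]
        ring
      have hper : Function.Periodic (fun β : ℝ => fb (e β * ((‖z‖ : ℝ) : ℂ))) (2 * π) := by
        intro β
        simp only [he]
        congr 2
        push_cast
        rw [add_mul, Complex.exp_add, Complex.exp_two_pi_mul_I, mul_one]
      simp only [h5]
      rw [intervalIntegral.integral_comp_add_right (fun β : ℝ => fb (e β * ((‖z‖ : ℝ) : ℂ)))]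
      have h6 := hper.intervalIntegral_add_eq 0 (Complex.arg z)
      rw [zero_add] at h6
      rw [h6, zero_add, add_comm]
    rw [h4, h3, setIntegral_const, measureReal_def, Real.volume_Ioc, sub_zero,
      ENNReal.toReal_ofReal (by positivity), Complex.real_smul]
    have : ((2 : ℂ) * π) ≠ 0 := mul_ne_zero two_ne_zero (by exact_mod_cast Real.pi_ne_zero)
    push_cast
    field_simp

lemma Radial.star {f : Lp ℂ ∞ dA} (hf : Radial f) : Radial (star f) := by
  obtain ⟨F, hF⟩ := hf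
  refine ⟨fun r => conj (F r), ?_⟩
  filter_upwards [star_ae f, hF] with z h1 h2
  rw [h1, h2]

end Q194.TP
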