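import Mathlib

/-!
# Kronecker's lemma on vanishing Hankel determinants
-/

namespace Q194.TP

open Finset Matrix

variable {K : Type*} [Field K]

/-- the Hankel matrix -/
def hk (a : ℕ → K) (n k : ℕ) : Matrix (Fin n) (Fin n) K := fun i j => a (k + i + j)

lemma hk_kill {a : ℕ → K} {n k : ℕ} (h : (hk a n k).det ≠ 0) (x : Fin n → K)
    (hx : ∀ i : Fin n, ∑ j : Fin n, a (k + i + j) * x j = 0) : x = 0 := by
  by_contra hne
  refine h (Matrix.exists_mulVec_eq_zero_iff.1 ⟨x, hne, ?_⟩)
  funext i
  exact hx i

lemma hk_exists {a : ℕ → K} {n k : ℕ} (h : (hk a n k).det = 0) : ∃ x : Fin n → K, x ≠ 0 ∧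
    ∀ i : Fin n, ∑ j : Fin n, a (k + i + j) * x j = 0 := by
  obtain ⟨x, hx, h1⟩ := Matrix.exists_mulVec_eq_zero_iff.2 h
  exact ⟨x, hx, fun i => congrFun h1 i⟩

/-- descending lemma -/
lemma hk_desc {a : ℕ → K} {n k : ℕ} (h0 : (hk a (n + 1) k).det = 0)
    (h1 : (hk a n (k + 1)).det ≠ 0) : (hk a n k).det ≠ 0 := by
  intro h
  obtain ⟨c, hc, hck⟩ := hk_exists h0
  obtain ⟨e, he, hek⟩ := hk_exists h
  -- a vector of length `n + 1` killed by the first `n` rows with first coordinate zero vanishes
  have key : ∀ x : Fin (n + 1) → K, (∀ i : Fin n, ∑ j : Fin (n + 1), a (k + i + j) * x j = 0) →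
      x 0 = 0 → x = 0 := by
    intro x hx h00
    have h2 : (fun j : Fin n => x j.succ) = 0 := by
      refine hk_kill h1 _ fun i => ?_
      have := hx i
      rw [Fin.sum_univ_succ, h00, mul_zero, zero_add] at this
      rw [← this]
      refine sum_congr rfl fun j _ => ?_
      congr 2
      simp only [Fin.val_succ]
      omega
    funext j
    refine Fin.cases h00 (fun j => congrFun h2 j) j
  have hc0 : c 0 ≠ 0 := fun h00 => hc (key c (fun i => by
    have := hck i.castSucc
    simpa using this) h00)
  set e' : Fin (n + 1) → K := Fin.snoc e 0 with he'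
  have hek' : ∀ i : Fin n, ∑ j : Fin (n + 1), a (k + i + j) * e' j = 0 := by
    intro i
    rw [Fin.sum_univ_castSucc]
    simp only [he', Fin.snoc_castSucc, Fin.snoc_last, mul_zero, add_zero, Fin.val_castSucc]
    exact hek i
  have hlin : (fun j => c 0 * e' j - e' 0 * c j) = 0 := by
    refine key _ (fun i => ?_) (by ring)
    have h3 : ∑ j : Fin (n + 1), a (k + i + j) * (c 0 * e' j - e' 0 * c j) =
        c 0 * ∑ j : Fin (n + 1), a (k + i + j) * e' j -
          e' 0 * ∑ j : Fin (n + 1), a (k + i + j) * c j := by
      rw [mul_sum, mul_sum, ← sum_sub_distrib]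
      exact sum_congr rfl fun j _ => by ring
    rw [h3, hek' i]
    have h4 := hck i.castSucc
    simp only [Fin.val_castSucc] at h4
    rw [h4]
    ring
  have he0 : e' 0 ≠ 0 := by
    intro h00
    refine he ?_
    funext j
    have h5 := congrFun hlin j.castSucc
    simp only [h00, zero_mul, sub_zero, Pi.zero_apply] at h5
    rw [he', Fin.snoc_castSucc] at h5
    exact (mul_eq_zero.1 h5).resolve_left hc0
  have hcn : c (Fin.last n) = 0 := by
    have h5 := congrFun hlin (Fin.last n)
    simp only [Pi.zero_apply, he', Fin.snoc_last, mul_zero, zero_sub, neg_eq_zero] at h5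
    exact (mul_eq_zero.1 h5).resolve_left he0
  -- the rows `1, …, n` kill `c`
  have h6 : (fun j : Fin n => c j.castSucc) = 0 := by
    refine hk_kill h1 _ fun i => ?_
    have := hck i.succ
    rw [Fin.sum_univ_castSucc, hcn, mul_zero, add_zero] at this
    rw [← this]
    refine sum_congr rfl fun j _ => ?_
    congr 2
    simp only [Fin.val_succ, Fin.val_castSucc]
    omega
  refine hc ?_
  funext j
  refine Fin.lastCases hcn (fun j => congrFun h6 j) j

/-- **Kronecker's lemma.** -/
theorem kronecker (n : ℕ) (a : ℕ → K) (k0 : ℕ) (h : ∀ k, k0 ≤ k → (hk a n k).det = 0) :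
    ∃ (c : Fin n → K) (k1 : ℕ), c ≠ 0 ∧ ∀ k, k1 ≤ k → ∑ j : Fin n, a (k + j) * c j = 0 := by
  induction n generalizing k0 with
  | zero =>
    have := h k0 le_rfl
    rw [Matrix.det_fin_zero] at this
    exact absurd this one_ne_zero
  | succ n ih =>
    by_cases hc : ∃ k2, ∀ k, k2 ≤ k → (hk a n k).det = 0
    · obtain ⟨k2, hk2⟩ := hc
      obtain ⟨c, k1, hc0, hck⟩ := ih k2 hk2
      refine ⟨Fin.snoc c 0, k1, ?_, fun k hk => ?_⟩
      · intro h0
        refine hc0 ?_
        funext j
        have := congrFun h0 j.castSucc
        simpa using this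
      · rw [Fin.sum_univ_castSucc]
        simp only [Fin.snoc_castSucc, Fin.snoc_last, mul_zero, add_zero, Fin.val_castSucc]
        exact hck k hk
    · push Not at hc
      have hne : ∀ k, k0 ≤ k → (hk a n k).det ≠ 0 := by
        intro k hk
        obtain ⟨k', hkk', hk'⟩ := hc k
        obtain ⟨d, rfl⟩ := Nat.exists_eq_add_of_le hkk'
        induction d with
        | zero => exact hk'
        | succ d ihd =>
          exact ihd (by omega) (hk_desc (h (k + d) (by omega)) hk')
      have hex : ∀ k, k0 ≤ k → ∃ x : Fin (n + 1) → K, x (Fin.last n) = 1 ∧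
          ∀ i : Fin (n + 1), ∑ j : Fin (n + 1), a (k + i + j) * x j = 0 := by
        intro k hk
        obtain ⟨c, hc0, hck⟩ := hk_exists (h k hk)
        have hcn : c (Fin.last n) ≠ 0 := by
          intro hcn
          refine hc0 ?_
          have h6 : (fun j : Fin n => c j.castSucc) = 0 := by
            refine hk_kill (hne k hk) _ fun i => ?_
            have := hck i.castSucc
            rw [Fin.sum_univ_castSucc, hcn, mul_zero, add_zero] at this
            rw [← this]
            rfl
          funext j
          exact Fin.lastCases hcn (fun j => congrFun h6 j) j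
        refine ⟨fun j => (c (Fin.last n))⁻¹ * c j, inv_mul_cancel₀ hcn, fun i => ?_⟩
        have h3 : ∑ j : Fin (n + 1), a (k + i + j) * ((c (Fin.last n))⁻¹ * c j) =
            (c (Fin.last n))⁻¹ * ∑ j : Fin (n + 1), a (k + i + j) * c j := by
          rw [mul_sum]
          exact sum_congr rfl fun j _ => by ring
        rw [h3, hck i, mul_zero]
      obtain ⟨c, hc1, hck⟩ := hex k0 le_rfl
      refine ⟨c, k0, fun h0 => ?_, fun k hk => ?_⟩
      · rw [h0] at hc1
        exact zero_ne_one hc1
      · -- the vector does not depend on `k`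
        have hall : ∀ d, ∀ i : Fin (n + 1), ∑ j : Fin (n + 1), a (k0 + d + i + j) * c j = 0 := by
          intro d
          induction d with
          | zero => exact hck
          | succ d ihd =>
            obtain ⟨x, hx1, hxk⟩ := hex (k0 + (d + 1)) (by omega)
            have hxc : (fun j : Fin n => x j.castSucc - c j.castSucc) = 0 := by
              refine hk_kill (hne (k0 + (d + 1)) (by omega)) _ fun i => ?_
              have h7 := hxk i.castSucc
              have h8 := ihd i.succ
              rw [Fin.sum_univ_castSucc, hx1] at h7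
              rw [Fin.sum_univ_castSucc, hc1] at h8
              have e : ∀ j : ℕ, k0 + d + (i.succ : ℕ) + j = k0 + (d + 1) + (i.castSucc : ℕ) + j := by
                intro j
                simp only [Fin.val_succ, Fin.val_castSucc]
                omega
              simp only [e] at h8
              have h9 := sub_eq_zero.2 (h7.trans h8.symm)
              rw [add_sub_add_right_eq_sub, ← sum_sub_distrib] at h9
              rw [← h9]
              refine sum_congr rfl fun j _ => ?_
              simp only [Fin.val_castSucc]
              ring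
            have hxeq : x = c := by
              funext j
              refine Fin.lastCases (by rw [hx1, hc1]) (fun j => ?_) j
              exact sub_eq_zero.1 (congrFun hxc j)
            rw [hxeq] at hxk
            exact hxk
        obtain ⟨d, rfl⟩ := Nat.exists_eq_add_of_le hk
        have := hall d 0
        simpa using this

end Q194.TP
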