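import Pool.Agent.Q194.TP.Orth
import Pool.Agent.Q194.TP.Kron

/-!
# Zero products of Toeplitz operators
-/

namespace Q194.TP

open MeasureTheory Metric Topology Filter Real
open scoped ENNReal ComplexConjugate

lemma phi_meas (l j : ℕ) : Continuous (phi l j) := by
  unfold phi
  fun_prop

lemma phi_memLp (l j : ℕ) (p : ℝ≥0∞) : MemLp (phi l j) p dA := by
  refine MemLp.of_bound (phi_meas l j).aestronglyMeasurable 1 ?_
  filter_upwards [ae_ball] with z hz
  exact phi_norm hz

/-- the monomials as elements of `L²` -/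
noncomputable def phiL (l j : ℕ) : Lp ℂ 2 dA := (phi_memLp l j 2).toLp _

lemma phiL_ae (l j : ℕ) : phiL l j =ᵐ[dA] phi l j := MemLp.coeFn_toLp _

lemma phiL_mem {n : ℕ} (l : ℕ) (j : Fin n) : phiL l j ∈ polyBergman n := by
  classical
  refine ⟨fun i z => if i = j then z ^ (l + j) else 0, fun i => ?_, ?_⟩
  · by_cases h : i = j
    · simp only [h, if_true]
      fun_prop
    · simp only [h, if_false]
      exact differentiableOn_const _
  · filter_upwards [phiL_ae l j] with z hz
    rw [hz, Finset.sum_eq_single j]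
    · rw [if_pos rfl, phi, mul_comm]
    · intro i _ hi
      rw [if_neg hi, mul_zero]
    · intro h
      exact absurd (Finset.mem_univ j) h

lemma phiL_mem' {n : ℕ} (l : ℕ) (j : Fin n) : phiL l j ∈ A2 n :=
  (polyBergman n).le_topologicalClosure (phiL_mem l j)

lemma inner_eq (x y : Lp ℂ 2 dA) : inner ℂ x y = ∫ z, conj (x z) * y z ∂dA := by
  rw [L2.inner_def]
  refine integral_congr_ae (Eventually.of_forall fun z => ?_)
  simp only [RCLike.inner_apply]
  ring

lemma smul_ae (f : Lp ℂ ∞ dA) (x : Lp ℂ 2 dA) :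
    ((f • x : Lp ℂ 2 dA) : ℂ → ℂ) =ᵐ[dA] fun z => f z * x z := by
  filter_upwards [Lp.coeFn_lpSMul (r := 2) f x] with z hz
  rw [hz]
  rfl

lemma star_ae (f : Lp ℂ ∞ dA) : ((star f : Lp ℂ ∞ dA) : ℂ → ℂ) =ᵐ[dA] fun z => conj (f z) := by
  filter_upwards [Lp.coeFn_star f] with z hz
  rw [hz]
  rfl

lemma inner_star (f : Lp ℂ ∞ dA) (x y : Lp ℂ 2 dA) :
    inner ℂ x (f • y : Lp ℂ 2 dA) = inner ℂ (star f • x : Lp ℂ 2 dA) y := by
  rw [inner_eq, inner_eq]
  refine integral_congr_ae ?_
  filter_upwards [smul_ae f y, smul_ae (star f) x, star_ae f] with z h1 h2 h3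
  rw [h1, h2, h3, map_mul, Complex.conj_conj]
  ring

lemma inner_star' (f : Lp ℂ ∞ dA) (x y : Lp ℂ 2 dA) :
    inner ℂ (f • x : Lp ℂ 2 dA) y = inner ℂ x (star f • y : Lp ℂ 2 dA) := by
  rw [inner_star, star_star]

lemma inner_toeplitz {n : ℕ} (f : Lp ℂ ∞ dA) (h : A2 n) {x : Lp ℂ 2 dA} (hx : x ∈ A2 n) :
    inner ℂ x (toeplitz n f h : Lp ℂ 2 dA) = inner ℂ x (f • (h : Lp ℂ 2 dA) : Lp ℂ 2 dA) := by
  unfold toeplitz
  have h2 := Submodule.inner_orthogonalProjectionOnto_eq_of_mem_left
    (K := A2 n) ⟨x, hx⟩ (f • (h : Lp ℂ 2 dA) : Lp ℂ 2 dA)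
  exact h2

/-- the adjoint of a radial Toeplitz operator on the monomials -/
lemma toeplitz_star {n : ℕ} {f : Lp ℂ ∞ dA} {F : ℝ → ℂ} (hF : Measurable F) {R : ℝ}
    (hR : ∀ r, ‖F r‖ ≤ R) (hf : f =ᵐ[dA] fun z => F ‖z‖) (l : ℕ) (j : Fin n) :
    ∃ b : Fin n → ℂ, (∀ i : Fin n, inner ℂ (phiL l i) (star f • phiL l j : Lp ℂ 2 dA) =
      ∑ i' : Fin n, b i' * inner ℂ (phiL l i) (phiL l i')) ∧
      ∀ K ∈ A2 n, inner ℂ (star f • phiL l j : Lp ℂ 2 dA) K =
        ∑ i : Fin n, conj (b i) * inner ℂ (phiL l i) K := by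
  set V : Submodule ℂ (Lp ℂ 2 dA) := Submodule.span ℂ (Set.range fun i : Fin n => phiL l i) with hV
  have : FiniteDimensional ℂ V := FiniteDimensional.span_of_finite ℂ (Set.finite_range _)
  set x : Lp ℂ 2 dA := star f • phiL l j with hx
  obtain ⟨b, hb⟩ := (Submodule.mem_span_range_iff_exists_fun ℂ).1 (V.orthogonalProjectionOnto x).2
  have hVi : ∀ i : Fin n, phiL l i ∈ V := fun i => Submodule.subset_span ⟨i, rfl⟩
  have h1 : ∀ i : Fin n, inner ℂ (phiL l i) x = inner ℂ (phiL l i) (∑ i' : Fin n, b i' • phiL l i') := by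
    intro i
    rw [hb]
    exact (Submodule.inner_orthogonalProjectionOnto_eq_of_mem_left (K := V) ⟨_, hVi i⟩ x).symm
  refine ⟨b, fun i => ?_, fun K hK => ?_⟩
  · rw [h1, inner_sum]
    exact Finset.sum_congr rfl fun i' _ => by rw [inner_smul_right]
  -- orthogonality
  have horth : ∀ K ∈ A2 n, inner ℂ (x - ∑ i' : Fin n, b i' • phiL l i') K = 0 := by
    have hcl : IsClosed {K : Lp ℂ 2 dA | inner ℂ (x - ∑ i' : Fin n, b i' • phiL l i') K = 0} :=
      isClosed_eq (continuous_const.inner continuous_id) continuous_const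
    have hsub : (A2 n : Set (Lp ℂ 2 dA)) ⊆
        {K : Lp ℂ 2 dA | inner ℂ (x - ∑ i' : Fin n, b i' • phiL l i') K = 0} := by
      rw [A2, Submodule.topologicalClosure_coe]
      refine closure_minimal ?_ hcl
      rintro K ⟨H, hH, hKH⟩
      set u : ℂ → ℂ := fun z => (conj (F ‖z‖) * ((‖z‖ ^ 2 : ℝ) : ℂ) ^ (j : ℕ) -
        ∑ i : Fin n, b i * ((‖z‖ ^ 2 : ℝ) : ℂ) ^ (i : ℕ)) * z ^ l with hu
      have hphi : ∀ (i : ℕ) (z : ℂ), phi l i z = ((‖z‖ ^ 2 : ℝ) : ℂ) ^ i * z ^ l := by
        intro i z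
        have : ((‖z‖ ^ 2 : ℝ) : ℂ) = z * conj z := by
          rw [Complex.mul_conj, Complex.normSq_eq_norm_sq]
        rw [this, phi, mul_pow]
        ring
      have hxu : ((x - ∑ i' : Fin n, b i' • phiL l i' : Lp ℂ 2 dA) : ℂ → ℂ) =ᵐ[dA] u := by
        have h2 : ((∑ i' : Fin n, b i' • phiL l i' : Lp ℂ 2 dA) : ℂ → ℂ) =ᵐ[dA]
            fun z => ∑ i' : Fin n, b i' * phi l i' z := by
          have h3 := Lp.coeFn_finsetSum Finset.univ (fun i' : Fin n => b i' • phiL l i')
          have h4 : ∀ᵐ z ∂dA, ∀ i' : Fin n, (b i' • phiL l i' : Lp ℂ 2 dA) z = b i' * phi l i' z := by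
            rw [ae_all_iff]
            intro i'
            filter_upwards [Lp.coeFn_smul (b i') (phiL l i'), phiL_ae l i'] with z h5 h6
            rw [h5, Pi.smul_apply, h6, smul_eq_mul]
          filter_upwards [h3, h4] with z h5 h6
          rw [h5]
          simp only [Finset.sum_apply]
          exact Finset.sum_congr rfl fun i' _ => h6 i'
        filter_upwards [Lp.coeFn_sub x (∑ i' : Fin n, b i' • phiL l i'), h2, smul_ae (star f) (phiL l j),
          star_ae f, phiL_ae l j, hf] with z h5 h6 h7 h8 h9 h10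
        rw [h5, Pi.sub_apply, h6, hx, h7, h8, h9, h10, hphi]
        simp only [hu, hphi]
        rw [sub_mul, Finset.sum_mul]
        congr 1
        · ring
        · exact Finset.sum_congr rfl fun i' _ => by ring
      have hum : Measurable u := by
        have h2 : Measurable fun z : ℂ => conj (F ‖z‖) :=
          Complex.continuous_conj.measurable.comp (hF.comp measurable_norm)
        simp only [hu]
        fun_prop
      have huB : ∀ z, ‖z‖ < 1 → ‖u z‖ ≤ R + ∑ i : Fin n, ‖b i‖ := by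
        intro z hz
        have hz2 : ‖((‖z‖ ^ 2 : ℝ) : ℂ)‖ ≤ 1 := by
          rw [Complex.norm_real, norm_pow, norm_norm]
          exact pow_le_one₀ (norm_nonneg _) hz.le
        simp only [hu]
        rw [norm_mul, norm_pow]
        refine (mul_le_of_le_one_right (norm_nonneg _) (pow_le_one₀ (norm_nonneg _) hz.le)).trans ?_
        refine (norm_sub_le _ _).trans (add_le_add ?_ ((norm_sum_le _ _).trans
          (Finset.sum_le_sum fun i _ => ?_)))
        · rw [norm_mul, RCLike.norm_conj, norm_pow]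
          exact (mul_le_of_le_one_right (norm_nonneg _) (pow_le_one₀ (norm_nonneg _) hz2)).trans (hR _)
        · rw [norm_mul, norm_pow]
          exact mul_le_of_le_one_right (norm_nonneg _) (pow_le_one₀ (norm_nonneg _) hz2)
      have hrot : ∀ (w z : ℂ), ‖w‖ = 1 → u (w * z) = w ^ l * u z := by
        intro w z hw
        simp only [hu]
        rw [norm_mul, hw, one_mul, mul_pow]
        ring
      have hKint : Integrable (fun z => ∑ j : Fin n, conj z ^ (j : ℕ) * H j z) dA :=
        ((Lp.memLp K).integrable (by norm_num)).congr hKH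
      have h5 := orth hH hKint hum huB hrot (fun i => by
        have h6 : inner ℂ (x - ∑ i' : Fin n, b i' • phiL l i') (phiL l i) = 0 := by
          rw [← inner_conj_symm, inner_sub_right, ← h1 i, sub_self, map_zero]
        rw [inner_eq] at h6
        rw [← h6]
        refine integral_congr_ae ?_
        filter_upwards [hxu, phiL_ae l i] with z h7 h8
        rw [h7, h8])
      change inner ℂ (x - ∑ i' : Fin n, b i' • phiL l i') K = 0
      rw [inner_eq, ← h5]
      refine integral_congr_ae ?_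
      filter_upwards [hxu, hKH] with z h7 h8
      rw [h7, h8]
    exact fun K hK => hsub hK
  have h2 := horth K hK
  rw [inner_sub_left, sub_eq_zero] at h2
  rw [h2, sum_inner]
  exact Finset.sum_congr rfl fun i _ => by rw [inner_smul_left]

/-- the key product -/
lemma key_prod {n : ℕ} (hn : 0 < n) {f g : Lp ℂ ∞ dA} {F : ℝ → ℂ} (hF : Measurable F) {R : ℝ}
    (hR : ∀ r, ‖F r‖ ≤ R) (hf : f =ᵐ[dA] fun z => F ‖z‖) (h0 : A2 n)
    (hfg : toeplitz n f (toeplitz n g h0) = 0) (l : ℕ) :
    (Matrix.det fun i j : Fin n => Mom f ((l + i + j : ℕ) : ℂ)) *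
      inner ℂ (phiL l 0) (g • (h0 : Lp ℂ 2 dA) : Lp ℂ 2 dA) = 0 := by
  by_contra hne
  obtain ⟨hdet, hy0⟩ := mul_ne_zero_iff.1 hne
  choose b hb1 hb2 using toeplitz_star (n := n) hF hR hf l
  set y : Fin n → ℂ := fun i => inner ℂ (phiL l i) (g • (h0 : Lp ℂ 2 dA) : Lp ℂ 2 dA) with hy
  have hker : ∀ j : Fin n, ∑ i : Fin n, conj (b j i) * y i = 0 := by
    intro j
    have h1 : inner ℂ (phiL l j) (toeplitz n f (toeplitz n g h0) : Lp ℂ 2 dA) = 0 := by
      rw [hfg]
      exact inner_zero_right _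
    rw [inner_toeplitz f _ (phiL_mem' l j), inner_star, hb2 j _ (toeplitz n g h0).2] at h1
    rw [← h1]
    refine Finset.sum_congr rfl fun i _ => ?_
    rw [inner_toeplitz g h0 (phiL_mem' l i)]
  have hB : (Matrix.of fun j i : Fin n => conj (b j i)).det = 0 := by
    refine Matrix.exists_mulVec_eq_zero_iff.1 ⟨y, ?_, ?_⟩
    · intro h2
      exact hy0 (congrFun h2 ⟨0, hn⟩)
    · funext j
      exact hker j
  refine hdet ?_
  -- the product formula
  set Γ : Matrix (Fin n) (Fin n) ℂ := fun i i' => conj (inner ℂ (phiL l i) (phiL l i')) with hΓ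
  have hprod : (fun i j : Fin n => Mom f ((l + i + j : ℕ) : ℂ)) =
      Γ * (Matrix.of fun j i : Fin n => conj (b j i)).transpose := by
    funext i j
    rw [Matrix.mul_apply]
    have h3 : Mom f ((l + i + j : ℕ) : ℂ) =
        conj (inner ℂ (phiL l i) (star f • phiL l j : Lp ℂ 2 dA)) := by
      rw [inner_eq, ← integral_conj, Mom]
      refine integral_congr_ae ?_
      filter_upwards [phiL_ae l i, phiL_ae l j, smul_ae (star f) (phiL l j), star_ae f]
        with z h4 h5 h6 h7
      rw [h4, h6, h7, h5, Complex.cpow_natCast]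
      have : ((‖z‖ ^ 2 : ℝ) : ℂ) = z * conj z := by
        rw [Complex.mul_conj, Complex.normSq_eq_norm_sq]
      rw [this]
      simp only [phi, map_mul, map_pow, Complex.conj_conj]
      ring
    rw [h3, hb1 j i, map_sum]
    refine Finset.sum_congr rfl fun i' _ => ?_
    rw [map_mul, Matrix.transpose_apply, Matrix.of_apply]
    simp only [hΓ]
    ring
  have h4 : (Matrix.det fun i j : Fin n => Mom f ((l + i + j : ℕ) : ℂ)) =
      (Γ * (Matrix.of fun j i : Fin n => conj (b j i)).transpose).det := by rw [← hprod]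
  rw [h4, Matrix.det_mul, Matrix.det_transpose, hB, mul_zero]

end Q194.TP
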