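import Pool.Agent.Q194.TP.SW

/-!
# Averaging over rotations
-/

namespace Q194.TP

open MeasureTheory Metric Topology Filter Real
open scoped ENNReal ComplexConjugate

lemma exp_int {c : ℤ} (hc : c ≠ 0) :
    ∫ α in (0 : ℝ)..2 * π, Complex.exp ((c : ℂ) * Complex.I * α) = 0 := by
  have hne : (c : ℂ) * Complex.I ≠ 0 := mul_ne_zero (by exact_mod_cast hc) Complex.I_ne_zero
  rw [integral_exp_mul_complex hne]
  have e : (c : ℂ) * Complex.I * ((2 * π : ℝ) : ℂ) = c * (2 * π * Complex.I) := by
    push_cast; ring
  rw [e, Complex.exp_int_mul_two_pi_mul_I]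
  simp

lemma coef {h : ℂ → ℂ} (hh : DifferentiableOn ℂ h (ball 0 1)) {z : ℂ} (hz : ‖z‖ < 1) (m : ℕ) :
    ∫ α in (0 : ℝ)..2 * π, Complex.exp (-(m : ℂ) * Complex.I * α) *
      h (Complex.exp (Complex.I * α) * z) =
      2 * π * (((m.factorial : ℂ)⁻¹ * iteratedDeriv m h 0) * z ^ m) := by
  set c : ℕ → ℂ := fun k => (k.factorial : ℂ)⁻¹ * iteratedDeriv k h 0 with hc
  have hsum : ∀ w : ℂ, ‖w‖ < 1 → HasSum (fun k => c k * w ^ k) (h w) := by
    intro w hw
    have := Complex.hasSum_taylorSeries_on_ball (f := h) (c := 0) (r := 1)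
      (by simpa using hh) (z := w) (by simpa using hw)
    have e : (fun k => c k * w ^ k) =
        fun k : ℕ => (k.factorial : ℂ)⁻¹ • (w - 0) ^ k • iteratedDeriv k h 0 := by
      funext k
      simp only [hc, sub_zero, smul_eq_mul]
      ring
    rw [e]
    exact this
  have hnorm : ∀ α : ℝ, ‖Complex.exp (Complex.I * α)‖ = 1 := by
    intro α
    rw [mul_comm]
    exact Complex.norm_exp_ofReal_mul_I α
  have hnorm2 : ∀ α : ℝ, ‖Complex.exp (-(m : ℂ) * Complex.I * α)‖ = 1 := by
    intro α
    have : -(m : ℂ) * Complex.I * α = ((-(m : ℝ) * α : ℝ) : ℂ) * Complex.I := by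
      push_cast; ring
    rw [this]
    exact Complex.norm_exp_ofReal_mul_I _
  have habs : Summable fun k => ‖c k‖ * ‖z‖ ^ k := by
    have := (hsum z hz).summable.norm
    simpa [norm_mul, norm_pow] using this
  have h1 := intervalIntegral.hasSum_integral_of_dominated_convergence (a := (0 : ℝ)) (b := 2 * π)
    (μ := volume)
    (F := fun (k : ℕ) (α : ℝ) => Complex.exp (-(m : ℂ) * Complex.I * α) *
      (c k * (Complex.exp (Complex.I * α) * z) ^ k))
    (f := fun α : ℝ => Complex.exp (-(m : ℂ) * Complex.I * α) *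
      h (Complex.exp (Complex.I * α) * z))
    (fun k _ => ‖c k‖ * ‖z‖ ^ k)
    (fun k => by
      refine Continuous.aestronglyMeasurable ?_
      fun_prop)
    (fun k => Eventually.of_forall fun α _ => by
      rw [norm_mul, hnorm2, one_mul, norm_mul (c k), norm_pow, norm_mul (Complex.exp _), hnorm,
        one_mul])
    (Eventually.of_forall fun α _ => habs)
    (by simp)
    (Eventually.of_forall fun α _ => by
      refine (hsum _ ?_).mul_left _
      rw [norm_mul, hnorm, one_mul]
      exact hz)
  have h2 : ∀ k : ℕ, ∫ α in (0 : ℝ)..2 * π, Complex.exp (-(m : ℂ) * Complex.I * α) *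
      (c k * (Complex.exp (Complex.I * α) * z) ^ k) =
      if k = m then 2 * π * (c m * z ^ m) else 0 := by
    intro k
    have e : ∀ α : ℝ, Complex.exp (-(m : ℂ) * Complex.I * α) *
      (c k * (Complex.exp (Complex.I * α) * z) ^ k) =
        c k * z ^ k * Complex.exp ((((k : ℤ) - (m : ℤ) : ℤ) : ℂ) * Complex.I * α) := by
      intro α
      have e2 : (((k : ℤ) - (m : ℤ) : ℤ) : ℂ) * Complex.I * α =
          -(m : ℂ) * Complex.I * α + k * (Complex.I * α) := by
        push_cast; ring
      rw [e2, Complex.exp_add, Complex.exp_nat_mul, mul_pow]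
      ring
    simp only [e]
    rw [intervalIntegral.integral_const_mul]
    by_cases hkm : k = m
    · subst hkm
      rw [if_pos rfl]
      simp only [sub_self, Int.cast_zero, zero_mul, Complex.exp_zero]
      rw [intervalIntegral.integral_const]
      simp only [sub_zero, Complex.real_smul]
      push_cast
      ring
    · rw [if_neg hkm, exp_int (sub_ne_zero.2 (by exact_mod_cast hkm)), mul_zero]
  simp only [h2] at h1
  exact h1.unique (hasSum_ite_eq m _)

/-- the monomials -/
noncomputable def phi (l j : ℕ) (z : ℂ) : ℂ := z ^ (l + j) * conj z ^ j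

lemma phi_norm {l j : ℕ} {z : ℂ} (hz : ‖z‖ < 1) : ‖phi l j z‖ ≤ 1 := by
  rw [phi, norm_mul, norm_pow, norm_pow, RCLike.norm_conj]
  exact mul_le_one₀ (pow_le_one₀ (norm_nonneg _) hz.le) (by positivity)
    (pow_le_one₀ (norm_nonneg _) hz.le)

/-- **averaging** -/
theorem orth {n : ℕ} {H : Fin n → ℂ → ℂ} (hH : ∀ j, DifferentiableOn ℂ (H j) (ball 0 1))
    (hint : Integrable (fun z => ∑ j : Fin n, conj z ^ (j : ℕ) * H j z) dA) {l : ℕ} {u : ℂ → ℂ}
    (hu : Measurable u) {B : ℝ} (huB : ∀ z, ‖z‖ < 1 → ‖u z‖ ≤ B)
    (hrot : ∀ (w z : ℂ), ‖w‖ = 1 → u (w * z) = w ^ l * u z)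
    (horth : ∀ j : Fin n, ∫ z, conj (u z) * phi l j z ∂dA = 0) :
    ∫ z, conj (u z) * ∑ j : Fin n, conj z ^ (j : ℕ) * H j z ∂dA = 0 := by
  classical
  set HB : ℂ → ℂ := (ball (0 : ℂ) 1).piecewise (fun z => ∑ j : Fin n, conj z ^ (j : ℕ) * H j z)
    (fun _ => 0) with hHB
  have hHBm : Measurable HB := by
    refine ContinuousOn.measurable_piecewise ?_ continuousOn_const measurableSet_ball
    refine continuousOn_finsetSum _ fun j _ => ?_
    refine ContinuousOn.mul ?_ (hH j).continuousOn
    exact (Complex.continuous_conj.pow _).continuousOn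
  have hHBeq : ∀ z, ‖z‖ < 1 → HB z = ∑ j : Fin n, conj z ^ (j : ℕ) * H j z := by
    intro z hz
    rw [hHB, Set.piecewise_eq_of_mem]
    simpa using hz
  have hHBae : HB =ᵐ[dA] fun z => ∑ j : Fin n, conj z ^ (j : ℕ) * H j z := by
    filter_upwards [ae_ball] with z hz
    exact hHBeq z hz
  have hHBint : Integrable HB dA := hint.congr hHBae.symm
  have hC : ∫ z, conj (u z) * ∑ j : Fin n, conj z ^ (j : ℕ) * H j z ∂dA =
      ∫ z, conj (u z) * HB z ∂dA := by
    refine integral_congr_ae ?_
    filter_upwards [hHBae] with z hz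
    rw [hz]
  rw [hC]
  set C := ∫ z, conj (u z) * HB z ∂dA with hCd
  have hem : ∀ w : ℂ, ‖w‖ = 1 → MeasurableEmbedding fun z : ℂ => w * z := by
    intro w hw
    have hw0 : w ≠ 0 := by rintro rfl; simp at hw
    exact (Homeomorph.mulLeft₀ w hw0).measurableEmbedding
  set e : ℝ → ℂ := fun α => Complex.exp (Complex.I * α) with he
  have hen : ∀ α : ℝ, ‖e α‖ = 1 := by
    intro α
    simp only [he]
    rw [mul_comm]
    exact Complex.norm_exp_ofReal_mul_I α
  have hel : ∀ α : ℝ, conj (e α ^ l) = Complex.exp (-(l : ℂ) * Complex.I * α) := by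
    intro α
    simp only [he]
    rw [← Complex.exp_nat_mul, ← Complex.exp_conj]
    congr 1
    simp only [map_mul, Complex.conj_I, Complex.conj_ofReal, map_natCast]
    ring
  set F : ℝ → ℂ → ℂ := fun α z => Complex.exp (-(l : ℂ) * Complex.I * α) * (conj (u z) * HB (e α * z))
    with hF
  have hFrot : ∀ α z, F α z = (fun z => conj (u z) * HB z) (e α * z) := by
    intro α z
    simp only [hF]
    rw [hrot _ _ (hen α), map_mul, hel]
    ring
  have hFC : ∀ α, ∫ z, F α z ∂dA = C := by
    intro α
    simp only [hFrot]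
    exact (rot (hen α)).integral_comp (hem _ (hen α)) (fun z => conj (u z) * HB z)
  have huHint : Integrable (fun z => conj (u z) * HB z) dA := by
    refine (hHBint.norm.const_mul B).mono' ?_ ?_
    · exact ((Complex.continuous_conj.measurable.comp hu).mul hHBm).aestronglyMeasurable
    · filter_upwards [ae_ball] with z hz
      rw [norm_mul, RCLike.norm_conj]
      exact mul_le_mul_of_nonneg_right (huB z hz) (norm_nonneg _)
  have hFmeas : Measurable (Function.uncurry F) := by
    simp only [hF, he]
    refine Measurable.mul (by fun_prop) (Measurable.mul ?_ ?_)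
    · exact (Complex.continuous_conj.measurable.comp hu).comp measurable_snd
    · refine hHBm.comp ?_
      fun_prop
  have hFint : Integrable (Function.uncurry F) ((volume.restrict (Set.Ioc 0 (2 * π))).prod dA) := by
    rw [integrable_prod_iff hFmeas.aestronglyMeasurable]
    constructor
    · refine Eventually.of_forall fun α => ?_
      simp only [Function.uncurry]
      simp only [hFrot]
      exact (rot (hen α)).integrable_comp_of_integrable huHint
    · have e1 : ∀ α, ∫ z, ‖Function.uncurry F (α, z)‖ ∂dA = ∫ z, ‖conj (u z) * HB z‖ ∂dA := by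
        intro α
        simp only [Function.uncurry]
        simp only [hFrot]
        exact (rot (hen α)).integral_comp (hem _ (hen α)) (fun z => ‖conj (u z) * HB z‖)
      simp only [e1]
      exact integrable_const _
  have hswap := integral_integral_swap (f := F) (μ := volume.restrict (Set.Ioc 0 (2 * π))) (ν := dA)
    hFint
  have hleft : ∫ α in Set.Ioc 0 (2 * π), ∫ z, F α z ∂dA = 2 * π * C := by
    simp only [hFC]
    rw [setIntegral_const, measureReal_def, Real.volume_Ioc, sub_zero,
      ENNReal.toReal_ofReal (by positivity), Complex.real_smul]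
    push_cast
    ring
  rw [hleft] at hswap
  -- the inner integral
  have hinner : ∀ z, ‖z‖ < 1 → ∫ α in Set.Ioc 0 (2 * π), F α z =
      ∑ j : Fin n, (2 * π * (((l + j : ℕ).factorial : ℂ)⁻¹ * iteratedDeriv (l + j) (H j) 0)) *
        (conj (u z) * phi l j z) := by
    intro z hz
    rw [← intervalIntegral.integral_of_le (by positivity)]
    have e1 : ∀ α : ℝ, F α z = ∑ j : Fin n, (conj (u z) * conj z ^ (j : ℕ)) *
        (Complex.exp (-((l + j : ℕ) : ℂ) * Complex.I * α) * H j (Complex.exp (Complex.I * α) * z)) := by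
      intro α
      simp only [hF]
      rw [hHBeq _ (by rw [norm_mul, hen, one_mul]; exact hz), Finset.mul_sum, Finset.mul_sum]
      refine Finset.sum_congr rfl fun j _ => ?_
      have e2 : conj (e α * z) ^ (j : ℕ) = Complex.exp (-((j : ℕ) : ℂ) * Complex.I * α) *
          conj z ^ (j : ℕ) := by
        rw [map_mul, mul_pow]
        congr 1
        simp only [he]
        rw [← Complex.exp_conj, ← Complex.exp_nat_mul]
        congr 1
        simp only [map_mul, Complex.conj_I, Complex.conj_ofReal]
        ring
      have e3 : Complex.exp (-((l + j : ℕ) : ℂ) * Complex.I * α) =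
          Complex.exp (-(l : ℂ) * Complex.I * α) * Complex.exp (-((j : ℕ) : ℂ) * Complex.I * α) := by
        rw [← Complex.exp_add]
        congr 1
        push_cast
        ring
      rw [e2, e3]
      simp only [he]
      ring
    simp only [e1]
    rw [intervalIntegral.integral_finsetSum]
    · refine Finset.sum_congr rfl fun j _ => ?_
      rw [intervalIntegral.integral_const_mul, coef (hH j) hz (l + j), phi]
      ring
    · intro j _
      refine Continuous.intervalIntegrable ?_ _ _
      refine continuous_const.mul (Continuous.mul (by fun_prop) ?_)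
      refine (hH j).continuousOn.comp_continuous (by fun_prop) fun α => ?_
      rw [mem_ball, dist_zero_right, norm_mul]
      have := hen α
      simp only [he] at this
      rw [this, one_mul]
      exact hz
  have hright : ∫ z, (∫ α in Set.Ioc (0 : ℝ) (2 * π), F α z) ∂dA = 0 := by
    have e1 : ∫ z, (∫ α in Set.Ioc (0 : ℝ) (2 * π), F α z) ∂dA = ∫ z, ∑ j : Fin n,
        (2 * π * (((l + j : ℕ).factorial : ℂ)⁻¹ * iteratedDeriv (l + j) (H j) 0)) *
        (conj (u z) * phi l j z) ∂dA := by
      refine integral_congr_ae ?_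
      filter_upwards [ae_ball] with z hz
      exact hinner z hz
    rw [e1, integral_finsetSum]
    · refine Finset.sum_eq_zero fun j _ => ?_
      rw [integral_const_mul, horth, mul_zero]
    · intro j _
      refine Integrable.const_mul ?_ _
      refine Integrable.mono' (integrable_const B) ?_ ?_
      · refine ((Complex.continuous_conj.measurable.comp hu).mul ?_).aestronglyMeasurable
        unfold phi
        fun_prop
      · filter_upwards [ae_ball] with z hz
        rw [norm_mul, RCLike.norm_conj]
        have h3 := huB z hz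
        have h4 := phi_norm (l := l) (j := j) hz
        calc ‖u z‖ * ‖phi l j z‖ ≤ ‖u z‖ * 1 := mul_le_mul_of_nonneg_left h4 (norm_nonneg _)
          _ ≤ B := by rw [mul_one]; exact h3
  rw [hright] at hswap
  have hpi : (2 * (π : ℂ)) ≠ 0 := by
    refine mul_ne_zero two_ne_zero ?_
    exact_mod_cast Real.pi_ne_zero
  exact (mul_eq_zero.1 hswap).resolve_left hpi

end Q194.TP
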