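import Pool.Agent.Q194.TP.Fin
import Pool.Agent.Q194.TP.FR

/-!
# Products of Toeplitz operators of finite rank
-/

namespace Q194.TP

open MeasureTheory Metric Topology Filter Real
open scoped ENNReal ComplexConjugate

/-- The Toeplitz operator `T_f h = P_n (f h)` as a bounded linear operator on `A²_n`. -/
noncomputable def T (n : ℕ) (f : Lp ℂ ∞ dA) : A2 n →L[ℂ] A2 n :=
  (A2 n).orthogonalProjectionOnto ∘L (LinearMap.mkContinuous
    { toFun := fun h : Lp ℂ 2 dA => (f • h : Lp ℂ 2 dA)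
      map_add' := Lp.add_smul f
      map_smul' := fun c h => (Lp.smul_comm c f h).symm } ‖f‖ (Lp.norm_smul_le f)) ∘L (A2 n).subtypeL

lemma T_apply (n : ℕ) (f : Lp ℂ ∞ dA) (h : A2 n) : T n f h = toeplitz n f h := rfl

lemma T_adj (n : ℕ) (f : Lp ℂ ∞ dA) : ContinuousLinearMap.adjoint (T n f) = T n (star f) := by
  refine ((ContinuousLinearMap.eq_adjoint_iff _ _).2 fun x y => ?_).symm
  rw [T_apply, T_apply, ← inner_conj_symm]
  have h1 : inner ℂ y (toeplitz n (star f) x) =
      inner ℂ (y : Lp ℂ 2 dA) (star f • (x : Lp ℂ 2 dA) : Lp ℂ 2 dA) :=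
    inner_toeplitz (n := n) (star f) x y.2
  have h2 : inner ℂ x (toeplitz n f y) =
      inner ℂ (x : Lp ℂ 2 dA) (f • (y : Lp ℂ 2 dA) : Lp ℂ 2 dA) :=
    inner_toeplitz (n := n) f y x.2
  rw [h1, h2, inner_conj_symm, inner_star]

/-- the adjoint of an operator of finite rank -/
lemma fin_adj {E : Type*} [NormedAddCommGroup E] [InnerProductSpace ℂ E] [CompleteSpace E]
    (A : E →L[ℂ] E) (h : FiniteDimensional ℂ (LinearMap.range (A : E →ₗ[ℂ] E))) :
    FiniteDimensional ℂ (LinearMap.range (ContinuousLinearMap.adjoint A : E →ₗ[ℂ] E)) := by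
  set R := LinearMap.range (A : E →ₗ[ℂ] E) with hR
  have hle : LinearMap.range (ContinuousLinearMap.adjoint A : E →ₗ[ℂ] E) ≤
      R.map (ContinuousLinearMap.adjoint A : E →ₗ[ℂ] E) := by
    rintro _ ⟨y, rfl⟩
    refine ⟨(R.orthogonalProjectionOnto y : E), (R.orthogonalProjectionOnto y).2, ?_⟩
    have h1 : ContinuousLinearMap.adjoint A (y - (R.orthogonalProjectionOnto y : E)) = 0 := by
      refine ext_inner_right ℂ fun w => ?_
      rw [ContinuousLinearMap.adjoint_inner_left, inner_zero_left, ← inner_conj_symm]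
      have h2 : inner ℂ (A w) (y - (R.orthogonalProjectionOnto y : E)) = 0 :=
        Submodule.inner_right_of_mem_orthogonal (K := R) ⟨w, rfl⟩
          (Submodule.sub_starProjection_mem_orthogonal y)
      rw [h2, map_zero]
    rw [map_sub, sub_eq_zero] at h1
    exact h1.symm
  exact Submodule.finiteDimensional_of_le hle

/-- nice functions of an exponent -/
def Nice (D : ℂ → ℂ) : Prop :=
  (fun s : ℝ => D (s : ℂ)) ∈ Rep ∧ DifferentiableOn ℂ D {s | 0 < s.re}

lemma Nice.mul {D E : ℂ → ℂ} (hD : Nice D) (hE : Nice E) : Nice fun s => D s * E s :=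
  ⟨Rep.mul_mem hD.1 hE.1, hD.2.mul hE.2⟩

lemma Nice.one : Nice fun _ => 1 := ⟨Rep.one_mem, differentiableOn_const _⟩

lemma Nice.prod {ι : Type*} {D : ι → ℂ → ℂ} (hD : ∀ i, Nice (D i)) (s : Finset ι) :
    Nice fun t => ∏ i ∈ s, D i t := by
  classical
  induction s using Finset.induction_on with
  | empty => simpa using Nice.one
  | insert i s hi ih =>
    simp only [Finset.prod_insert hi]
    exact (hD i).mul ih

lemma nice_mom {ψ : ℂ → ℂ} (hψ : Integrable ψ dA) : Nice (Mom ψ) := ⟨mom_rep hψ, mom_diff hψ⟩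

lemma nice_HD {ψ : ℂ → ℂ} (hψ : Integrable ψ dA) (n c : ℕ) : Nice (HD ψ n c) :=
  ⟨HD_rep hψ n c, HD_diff hψ n c⟩

lemma Nice.det {N : ℕ} {F : Fin N → Fin N → ℂ → ℂ} (h : ∀ i j, Nice (F i j)) :
    Nice fun s => Matrix.det fun i j => F i j s := by
  constructor
  · set M : Matrix (Fin N) (Fin N) (ℝ → ℂ) := fun i j => fun s : ℝ => F i j (s : ℂ) with hM
    have h1 := Rep.det M fun i j => (h i j).1
    convert h1 using 1
    funext s
    have h2 := (Pi.evalRingHom (fun _ : ℝ => ℂ) s).map_det M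
    rw [Pi.evalRingHom_apply] at h2
    rw [h2]
    rfl
  · have e : (fun s => Matrix.det fun i j => F i j s) = fun s => ∑ σ : Equiv.Perm (Fin N),
        ((Equiv.Perm.sign σ : ℤ) : ℂ) * ∏ i, F (σ i) i s := by
      funext s
      exact Matrix.det_apply' _
    rw [e]
    exact DifferentiableOn.fun_sum fun σ _ =>
      (DifferentiableOn.fun_finsetProd fun i _ => (h _ _).2).const_mul _

/-- the alternative -/
theorem Nice.alt {D E : ℂ → ℂ} (hD : Nice D) (hE : Nice E)
    (h : ∀ k : ℕ, 1 ≤ k → D k * E k = 0) :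
    (∀ k : ℕ, 1 ≤ k → D k = 0) ∨ (∀ k : ℕ, 1 ≤ k → E k = 0) := by
  set U : Set ℂ := {s | 0 < s.re} with hU
  have hUo : IsOpen U := isOpen_lt continuous_const Complex.continuous_re
  have hUc : IsPreconnected U := (convex_halfSpace_re_gt 0).isPreconnected
  have hA : AnalyticOnNhd ℂ D U := hD.2.analyticOnNhd hUo
  have hB : AnalyticOnNhd ℂ E U := hE.2.analyticOnNhd hUo
  have hreal : ∀ s : ℝ, 1 ≤ s → D s * E s = 0 := fun s hs =>
    rep_zero (D := fun s : ℝ => D (s : ℂ) * E (s : ℂ))
      (Rep.mul_mem hD.1 hE.1) (fun k hk => by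
        simpa using h k hk) s hs
  have hzero : Set.EqOn (fun s => D s * E s) 0 U := by
    refine (hA.mul hB).eqOn_zero_of_preconnected_of_frequently_eq_zero hUc
      (z₀ := (2 : ℂ)) (by change 0 < (2 : ℂ).re; simp) ?_
    rw [Filter.frequently_iff]
    intro V hV
    rw [mem_nhdsWithin] at hV
    obtain ⟨W, hW, h2W, hWV⟩ := hV
    obtain ⟨ε, hε, hball⟩ := Metric.isOpen_iff.1 hW 2 h2W
    refine ⟨((2 + ε / 2 : ℝ) : ℂ), hWV ⟨hball ?_, ?_⟩, hreal _ (by linarith)⟩
    · rw [Metric.mem_ball, dist_eq_norm]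
      have : ((2 + ε / 2 : ℝ) : ℂ) - 2 = ((ε / 2 : ℝ) : ℂ) := by push_cast; ring
      rw [this, Complex.norm_real, Real.norm_eq_abs, abs_of_pos (by positivity)]
      linarith
    · intro h3
      have h4 := congrArg Complex.re h3
      rw [Complex.ofReal_re] at h4
      simp at h4
      linarith
  rcases hA.eq_zero_or_eq_zero_of_mul_eq_zero hB (fun z hz => hzero hz) hUc with h1 | h1
  · exact Or.inl fun k hk => h1 k (by
      change 0 < ((k : ℕ) : ℂ).re
      rw [Complex.natCast_re]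
      exact_mod_cast hk)
  · exact Or.inr fun k hk => h1 k (by
      change 0 < ((k : ℕ) : ℂ).re
      rw [Complex.natCast_re]
      exact_mod_cast hk)

/-- the alternative for products -/
theorem Nice.alt_prod {ι : Type*} {D : ι → ℂ → ℂ} (hD : ∀ i, Nice (D i)) {E : ℂ → ℂ} (hE : Nice E)
    (s : Finset ι) (h : ∀ k : ℕ, 1 ≤ k → (∏ i ∈ s, D i k) * E k = 0) :
    (∃ i, ∀ k : ℕ, 1 ≤ k → D i k = 0) ∨ (∀ k : ℕ, 1 ≤ k → E k = 0) := by
  classical
  induction s using Finset.induction_on with
  | empty =>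
    right
    intro k hk
    simpa using h k hk
  | insert i s hi ih =>
    have h1 := (hD i).alt ((Nice.prod hD s).mul hE) (fun k hk => by
      have := h k hk
      rw [Finset.prod_insert hi, mul_assoc] at this
      exact this)
    rcases h1 with h1 | h1
    · exact Or.inl ⟨i, h1⟩
    · exact ih h1

/-- the first symbol is radial -/
theorem first {n : ℕ} (hn : 0 < n) {f g : Lp ℂ ∞ dA} {F : ℝ → ℂ} (hF : Measurable F) {R : ℝ}
    (hR : ∀ r, ‖F r‖ ≤ R) (hf : f =ᵐ[dA] fun z => F ‖z‖)
    (hfin : FiniteDimensional ℂ (LinearMap.range ((T n f ∘L T n g : A2 n →L[ℂ] A2 n) :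
      A2 n →ₗ[ℂ] A2 n))) : f = 0 ∨ g = 0 := by
  classical
  have hfint : Integrable f dA := (Lp.memLp f).integrable (by norm_num)
  have hgint : Integrable g dA := (Lp.memLp g).integrable (by norm_num)
  set S : A2 n →ₗ[ℂ] A2 n := ((T n f ∘L T n g : A2 n →L[ℂ] A2 n) : A2 n →ₗ[ℂ] A2 n) with hS
  set N := Module.finrank ℂ (LinearMap.range S) + 1 with hN
  have hinner : ∀ l k : ℕ, inner ℂ (phiL l 0) (g • phiL k 0 : Lp ℂ 2 dA) = MM g l k := by
    intro l k
    rw [inner_eq]
    refine integral_congr_ae ?_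
    filter_upwards [phiL_ae l 0, phiL_ae k 0, smul_ae g (phiL k 0)] with z h1 h2 h3
    rw [h1, h3, h2]
    simp only [phi, add_zero, pow_zero, mul_one, map_pow]
    ring
  -- the product of determinants
  have hprod : ∀ l k : Fin N → ℕ, (∏ i, Matrix.det fun i' j : Fin n =>
      Mom f ((l i + i' + j : ℕ) : ℂ)) * (km (MM g) l k).det = 0 := by
    intro l k
    by_contra hne
    obtain ⟨h1, h2⟩ := mul_ne_zero_iff.1 hne
    have h1' := Finset.prod_ne_zero_iff.1 h1
    refine h2 ?_
    -- a relation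
    set x : Fin N → A2 n := fun j => ⟨phiL (k j) 0, phiL_mem' (n := n) (k j) ⟨0, hn⟩⟩ with hx
    set L : (Fin N → ℂ) →ₗ[ℂ] LinearMap.range S :=
      S.rangeRestrict ∘ₗ (Fintype.linearCombination ℂ x) with hL
    have hker : LinearMap.ker L ≠ ⊥ := by
      refine LinearMap.ker_ne_bot_of_finrank_lt ?_
      simp [hN]
    obtain ⟨c, hc, hc0⟩ := (Submodule.ne_bot_iff _).1 hker
    set h0 : A2 n := ∑ j, c j • x j with hh0
    have hS0 : toeplitz n f (toeplitz n g h0) = 0 := by
      have h3 : L c = 0 := hc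
      have h4 := congrArg Subtype.val h3
      have h5 : (L c : A2 n) = S h0 := by
        rw [hL, LinearMap.comp_apply, Fintype.linearCombination_apply]
        rfl
      rw [h5] at h4
      exact h4
    refine Matrix.exists_mulVec_eq_zero_iff.1 ⟨c, hc0, ?_⟩
    funext i
    have h3 := key_prod hn hF hR hf h0 hS0 (l i)
    have h4 := (mul_eq_zero.1 h3).resolve_left (h1' i (Finset.mem_univ i))
    have h5 : (g • (h0 : Lp ℂ 2 dA) : Lp ℂ 2 dA) = ∑ j, c j • (g • phiL (k j) 0 : Lp ℂ 2 dA) := by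
      have h6 : (h0 : Lp ℂ 2 dA) = ∑ j, c j • phiL (k j) 0 := by
        rw [hh0, Submodule.coe_sum]
        rfl
      rw [h6]
      set Lg : Lp ℂ 2 dA →ₗ[ℂ] Lp ℂ 2 dA :=
        { toFun := fun h : Lp ℂ 2 dA => (g • h : Lp ℂ 2 dA)
          map_add' := Lp.add_smul g
          map_smul' := fun c h => (Lp.smul_comm c g h).symm } with hLg
      change Lg (∑ j, c j • phiL (k j) 0) = ∑ j, c j • Lg (phiL (k j) 0)
      rw [map_sum]
      exact Finset.sum_congr rfl fun j _ => map_smul _ _ _
    rw [h5, inner_sum] at h4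
    simp only [Matrix.mulVec, dotProduct, km, Pi.zero_apply]
    rw [← h4]
    refine Finset.sum_congr rfl fun j _ => ?_
    rw [inner_smul_right, hinner]
    ring
  have hHD : ∀ (c k : ℕ), HD f n c (k : ℂ) =
      Matrix.det fun i j : Fin n => Mom f ((k + c + i + j : ℕ) : ℂ) := by
    intro c k
    unfold HD HM
    congr 1
    funext i j
    congr 1
    push_cast
    ring
  have hpol : ∀ a b : ℕ, Integrable (fun z => g z * (conj z ^ a * z ^ b)) dA := by
    intro a b
    refine hgint.mono (hgint.aestronglyMeasurable.mul (by fun_prop)) ?_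
    filter_upwards [ae_ball] with z hz
    rw [norm_mul, norm_mul, norm_pow, norm_pow, RCLike.norm_conj]
    exact mul_le_of_le_one_right (norm_nonneg _) (mul_le_one₀ (pow_le_one₀ (norm_nonneg _) hz.le)
      (by positivity) (pow_le_one₀ (norm_nonneg _) hz.le))
  have hmom : ∀ a b t : ℕ, Mom (fun z => g z * (conj z ^ a * z ^ b)) (t : ℂ) =
      MM g (t + a) (t + b) := by
    intro a b t
    unfold Mom MM
    refine integral_congr_ae (Eventually.of_forall fun z => ?_)
    have : ((‖z‖ ^ 2 : ℝ) : ℂ) = z * conj z := by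
      rw [Complex.mul_conj, Complex.normSq_eq_norm_sq]
    simp only [Complex.cpow_natCast, this, mul_pow, pow_add]
    ring
  by_cases hf0 : f = 0
  · exact Or.inl hf0
  right
  -- no Hankel determinant vanishes identically
  have hHne : ∀ c : ℕ, ¬ ∀ k : ℕ, 1 ≤ k → HD f n c (k : ℂ) = 0 := by
    intro c hc
    refine hf0 (radial_zero (n := n) hf (c + 1) fun k hk => ?_)
    obtain ⟨d, rfl⟩ := Nat.exists_eq_add_of_le hk
    have h1 := hc (d + 1) (by omega)
    rw [hHD] at h1
    unfold Q194.TP.hk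
    rw [← h1]
    congr 1
    funext i j
    congr 2
    ring
  have hdet : ∀ a b : Fin N → ℕ,
      (km (MM fun z => g z * (conj z ^ 1 * z ^ 1)) a b).det = 0 := by
    intro a b
    have halt := Nice.alt_prod (D := fun i : Fin N => HD f n (a i))
      (E := fun s => Matrix.det fun i j : Fin N => Mom (fun z => g z * (conj z ^ a i * z ^ b j)) s)
      (fun i => nice_HD hfint n (a i)) (Nice.det fun i j => nice_mom (hpol (a i) (b j)))
      Finset.univ (fun k _ => by
        have h1 := hprod (fun i => k + a i) (fun j => k + b j)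
        rw [← h1]
        congr 1
        · refine Finset.prod_congr rfl fun i _ => ?_
          rw [hHD]
        · congr 1
          funext i j
          rw [hmom]
          rfl)
    rcases halt with ⟨i, hi⟩ | h1
    · exact absurd hi (hHne _)
    · have h2 := h1 1 le_rfl
      rw [← h2]
      congr 1
      funext i j
      rw [hmom, km, MM, MM]
      refine integral_congr_ae (Eventually.of_forall fun z => ?_)
      simp only
      ring
  have hψ := finite_rank (hpol 1 1) N hdet
  rw [Lp.eq_zero_iff_ae_eq_zero]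
  filter_upwards [hψ, ae_ne_zero] with z h1 h2
  rw [Pi.zero_apply] at h1 ⊢
  refine (mul_eq_zero.1 h1).resolve_right (mul_ne_zero ?_ ?_)
  · rw [pow_one, Ne, map_eq_zero]
    exact h2
  · rw [pow_one]
    exact h2

/-- **Main theorem.** -/
theorem main {n : ℕ} (hn : 0 < n) (f g : Lp ℂ ∞ dA) (hrad : Radial f ∨ Radial g)
    (hfin : FiniteDimensional ℂ (LinearMap.range ((T n f ∘L T n g : A2 n →L[ℂ] A2 n) :
      A2 n →ₗ[ℂ] A2 n))) : f = 0 ∨ g = 0 := by
  rcases hrad with hf | hg
  · obtain ⟨F, R, hF, hR, hfF⟩ := hf.rep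
    exact first hn hF hR hfF hfin
  · obtain ⟨F, R, hF, hR, hgF⟩ := hg.star.rep
    have hadj : FiniteDimensional ℂ (LinearMap.range
        ((T n (star g) ∘L T n (star f) : A2 n →L[ℂ] A2 n) : A2 n →ₗ[ℂ] A2 n)) := by
      rw [← T_adj, ← T_adj, ← ContinuousLinearMap.adjoint_comp]
      exact fin_adj _ hfin
    have hstar : ∀ u : Lp ℂ ∞ dA, star u = 0 → u = 0 := by
      intro u hu
      have h1 : star (star u) = star (0 : Lp ℂ ∞ dA) := by rw [hu]
      rw [star_star] at h1
      rw [h1, Lp.eq_zero_iff_ae_eq_zero]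
      filter_upwards [star_ae (0 : Lp ℂ ∞ dA), Lp.coeFn_zero ℂ ∞ dA] with z h2 h3
      rw [h2, h3]
      simp
    rcases first hn hF hR hgF hadj with h | h
    · exact Or.inr (hstar g h)
    · exact Or.inl (hstar f h)

end Q194.TP
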