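import Mathlib

/-!
# Moment functions

Functions of the form `s ↦ Λ(t ^ s)`, `Λ` a functional on `C[0,1]`, form a ring, and they vanish if
they vanish at the integers.
-/

namespace Q194.TP

open Topology


/-- `t ↦ t ^ s` -/
noncomputable def pw (s : ℝ) : C(Set.Icc (0 : ℝ) 1, ℂ) :=
  ⟨fun t => (((t : ℝ) ^ (max s 0) : ℝ) : ℂ), by
    refine Complex.continuous_ofReal.comp ?_
    exact (Real.continuous_rpow_const (le_max_right s 0)).comp continuous_subtype_val⟩

lemma pw_apply (s : ℝ) (t : Set.Icc (0 : ℝ) 1) : pw s t = (((t : ℝ) ^ (max s 0) : ℝ) : ℂ) := rfl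

lemma pw_mul (s : ℝ) (x y : Set.Icc (0 : ℝ) 1) : pw s (x * y) = pw s x * pw s y := by
  rw [pw_apply, pw_apply, pw_apply, ← Complex.ofReal_mul, Set.Icc.coe_mul,
    Real.mul_rpow x.2.1 y.2.1]

lemma pw_add {s t : ℝ} (hs : 0 < s) (ht : 0 ≤ t) : pw (s + t) = pw s * pw t := by
  ext x
  rw [ContinuousMap.mul_apply, pw_apply, pw_apply, pw_apply, ← Complex.ofReal_mul]
  congr 1
  rw [max_eq_left hs.le, max_eq_left ht, max_eq_left (by positivity)]
  rcases eq_or_lt_of_le x.2.1 with h | h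
  · rw [← h, Real.zero_rpow (by positivity), Real.zero_rpow hs.ne', zero_mul]
  · exact Real.rpow_add h s t

/-- multiplication -/
def mulI : C(Set.Icc (0 : ℝ) 1 × Set.Icc (0 : ℝ) 1, Set.Icc (0 : ℝ) 1) :=
  ⟨fun p => p.1 * p.2, continuous_mul⟩

/-- the inner function of the convolution -/
noncomputable def inn (Λ : C(Set.Icc (0 : ℝ) 1, ℂ) →L[ℂ] ℂ) (f : C(Set.Icc (0 : ℝ) 1, ℂ)) :
    C(Set.Icc (0 : ℝ) 1, ℂ) :=
  (⟨Λ, Λ.continuous⟩ : C(C(Set.Icc (0 : ℝ) 1, ℂ), ℂ)).comp (f.comp mulI).curry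

lemma inn_apply (Λ : C(Set.Icc (0 : ℝ) 1, ℂ) →L[ℂ] ℂ) (f : C(Set.Icc (0 : ℝ) 1, ℂ))
    (x : Set.Icc (0 : ℝ) 1) : inn Λ f x = Λ ((f.comp mulI).curry x) := rfl

/-- multiplicative convolution of functionals -/
noncomputable def conv (Λ1 Λ2 : C(Set.Icc (0 : ℝ) 1, ℂ) →L[ℂ] ℂ) :
    C(Set.Icc (0 : ℝ) 1, ℂ) →L[ℂ] ℂ :=
  LinearMap.mkContinuous
    { toFun := fun f => Λ1 (inn Λ2 f)
      map_add' := fun f g => by
        rw [← map_add]
        congr 1
        ext x
        rw [ContinuousMap.add_apply, inn_apply, inn_apply, inn_apply, ← map_add]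
        rfl
      map_smul' := fun c f => by
        rw [RingHom.id_apply, ← map_smul]
        congr 1
        ext x
        rw [ContinuousMap.smul_apply, inn_apply, inn_apply, ← map_smul]
        rfl } (‖Λ1‖ * ‖Λ2‖) (fun f => by
    change ‖Λ1 (inn Λ2 f)‖ ≤ _
    refine (Λ1.le_opNorm _).trans ?_
    rw [mul_assoc]
    refine mul_le_mul_of_nonneg_left ?_ (norm_nonneg _)
    refine (ContinuousMap.norm_le _ (by positivity)).2 fun x => ?_
    rw [inn_apply]
    refine (Λ2.le_opNorm _).trans ?_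
    refine mul_le_mul_of_nonneg_left ?_ (norm_nonneg _)
    refine (ContinuousMap.norm_le _ (norm_nonneg _)).2 fun y => ?_
    exact f.norm_coe_le_norm _)

lemma conv_pw (Λ1 Λ2 : C(Set.Icc (0 : ℝ) 1, ℂ) →L[ℂ] ℂ) (s : ℝ) :
    conv Λ1 Λ2 (pw s) = Λ1 (pw s) * Λ2 (pw s) := by
  change Λ1 (inn Λ2 (pw s)) = _
  have e : inn Λ2 (pw s) = Λ2 (pw s) • pw s := by
    ext x
    rw [inn_apply, ContinuousMap.smul_apply, smul_eq_mul]
    have e2 : ((pw s).comp mulI).curry x = pw s x • pw s := by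
      ext y
      rw [ContinuousMap.smul_apply, smul_eq_mul]
      exact pw_mul s x y
    rw [e2, map_smul, smul_eq_mul, mul_comm]
  rw [e, map_smul, smul_eq_mul, mul_comm]

/-- the ring of moment functions -/
def Rep : Subring (ℝ → ℂ) where
  carrier := {D | ∃ Λ : C(Set.Icc (0 : ℝ) 1, ℂ) →L[ℂ] ℂ, ∀ s, 0 < s → D s = Λ (pw s)}
  mul_mem' := by
    rintro D D' ⟨Λ, h⟩ ⟨Λ', h'⟩
    exact ⟨conv Λ Λ', fun s hs => by rw [Pi.mul_apply, conv_pw, h s hs, h' s hs]⟩
  one_mem' := ⟨ContinuousMap.evalCLM ℂ 1, fun s hs => by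
    rw [ContinuousMap.evalCLM_apply, pw_apply]
    simp⟩
  add_mem' := by
    rintro D D' ⟨Λ, h⟩ ⟨Λ', h'⟩
    exact ⟨Λ + Λ', fun s hs => by
      rw [Pi.add_apply, add_apply, h s hs, h' s hs]⟩
  zero_mem' := ⟨0, fun s hs => by simp⟩
  neg_mem' := by
    rintro D ⟨Λ, h⟩
    exact ⟨-Λ, fun s hs => by rw [Pi.neg_apply, neg_apply, h s hs]⟩

lemma Rep.det {n : ℕ} (M : Matrix (Fin n) (Fin n) (ℝ → ℂ)) (h : ∀ i j, M i j ∈ Rep) :
    M.det ∈ Rep := by
  rw [Matrix.det_apply]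
  refine Rep.sum_mem fun σ _ => ?_
  refine Rep.zsmul_mem ?_ _
  exact Rep.prod_mem fun i _ => h _ _

/-- the embedding of the real functions -/
noncomputable def rho : C(Set.Icc (0 : ℝ) 1, ℝ) →L[ℝ] C(Set.Icc (0 : ℝ) 1, ℂ) :=
  Complex.ofRealCLM.compLeftContinuous ℝ (Set.Icc (0 : ℝ) 1)

lemma rho_apply (f : C(Set.Icc (0 : ℝ) 1, ℝ)) (t : Set.Icc (0 : ℝ) 1) : rho f t = (f t : ℂ) := rfl

/-- vanishing at the integers -/
theorem rep_zero {D : ℝ → ℂ} (hD : D ∈ Rep) (h : ∀ k : ℕ, 1 ≤ k → D k = 0) (s : ℝ) (hs : 1 ≤ s) :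
    D s = 0 := by
  obtain ⟨Λ, hΛ⟩ := hD
  have hk : ∀ k : ℕ, 1 ≤ k → Λ (pw k) = 0 := fun k hk => by
    rw [← hΛ k (by exact_mod_cast hk), h k hk]
  -- the functional on the real functions
  have hcont : Continuous fun f : C(Set.Icc (0 : ℝ) 1, ℝ) => Λ (pw 1 * rho f) :=
    Λ.continuous.comp (continuous_const.mul rho.continuous)
  have hpoly : ∀ p : Polynomial ℝ, Λ (pw 1 * rho (p.toContinuousMapOn (Set.Icc (0 : ℝ) 1))) = 0 := by
    intro p
    induction p using Polynomial.induction_on' with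
    | add p q hp hq =>
      have e : (p + q).toContinuousMapOn (Set.Icc (0 : ℝ) 1) =
          p.toContinuousMapOn (Set.Icc (0 : ℝ) 1) + q.toContinuousMapOn (Set.Icc (0 : ℝ) 1) := by
        ext t; simp
      rw [e, map_add, mul_add, map_add, hp, hq, add_zero]
    | monomial k a =>
      have e : pw 1 * rho ((Polynomial.monomial k a).toContinuousMapOn (Set.Icc (0 : ℝ) 1)) =
          (a : ℂ) • pw ((k + 1 : ℕ) : ℝ) := by
        have e1 : ((k + 1 : ℕ) : ℝ) = 1 + (k : ℝ) := by push_cast; ring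
        rw [e1, pw_add one_pos (Nat.cast_nonneg k), ← mul_smul_comm]
        congr 1
        ext t
        rw [rho_apply, ContinuousMap.smul_apply, pw_apply, max_eq_left (Nat.cast_nonneg k),
          Real.rpow_natCast, smul_eq_mul]
        simp
      rw [e, map_smul, hk (k + 1) (by omega), smul_zero]
  have hall : ∀ f : C(Set.Icc (0 : ℝ) 1, ℝ), Λ (pw 1 * rho f) = 0 := by
    have hclosed : IsClosed {f : C(Set.Icc (0 : ℝ) 1, ℝ) | Λ (pw 1 * rho f) = 0} :=
      isClosed_eq hcont continuous_const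
    intro f
    have hf : f ∈ (polynomialFunctions (Set.Icc (0 : ℝ) 1)).topologicalClosure := by
      rw [polynomialFunctions_closure_eq_top]
      trivial
    have hsub : ((polynomialFunctions (Set.Icc (0 : ℝ) 1)).topologicalClosure :
        Set C(Set.Icc (0 : ℝ) 1, ℝ)) ⊆ {f | Λ (pw 1 * rho f) = 0} := by
      rw [Subalgebra.topologicalClosure_coe]
      refine closure_minimal ?_ hclosed
      rintro g hg
      rw [SetLike.mem_coe, polynomialFunctions, Subalgebra.mem_map] at hg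
      obtain ⟨p, _, rfl⟩ := hg
      exact hpoly p
    exact hsub hf
  have hs1 : 0 ≤ s - 1 := by linarith
  set f : C(Set.Icc (0 : ℝ) 1, ℝ) := ⟨fun t => (t : ℝ) ^ (s - 1),
    (Real.continuous_rpow_const hs1).comp continuous_subtype_val⟩ with hf
  have e : pw s = pw 1 * rho f := by
    have e1 : s = 1 + (s - 1) := by ring
    conv_lhs => rw [e1]
    rw [pw_add one_pos hs1]
    congr 1
    ext t
    rw [rho_apply, pw_apply, max_eq_left hs1]
    rfl
  rw [hΛ s (by linarith), e, hall]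

end Q194.TP
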